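import Mathlib
import Pool.Agent.Lib.MP_c82530_nt.AA.Dens

set_option autoImplicit false

namespace Pool.Agent.Lib.MP_c82530_nt.AD

open Set Pool.Agent.Lib.MP_c82530_nt Pool.Agent.Lib.MP_c82530_nt.AA Module

/-! ### Hahn series are algebraically closed -/

/-- piece HV: extension of the valuation ring of Hahn series to an extension field.
Proof: Mathlib `IsLocalRing.exists_factor_valuationRing` (RingTheory/Valuation/LocalSubring.lean)
applied to the valuation ring of `HahnSeries ℚ k` (elements with `0 ≤ orderTop`) and the field `L`;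
a valuation ring `O` of `L` dominating it: if `f` is not in it then `f⁻¹` is in its maximal ideal,
so `f⁻¹` is a nonunit of `O` and `f ∉ O`. -/
def S_hv : Prop := ∀ (k L : Type) [Field k] [Field L] [Algebra (HahnSeries ℚ k) L],
  ∃ O : ValuationSubring L, ∀ f : HahnSeries ℚ k,
    algebraMap (HahnSeries ℚ k) L f ∈ O ↔ 0 ≤ f.orderTop

/-- piece HS: leading terms in an algebraic extension.
Proof: (1) some `yⁿ / h` (`n ≥ 1`, `h` a nonzero Hahn series) is a unit of `O`: in a relation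
`∑ aᵢ yⁱ = 0` two terms have the same maximal value `v(aᵢ) v(y)ⁱ = v(aⱼ) v(y)ʲ`, `i < j`.
(2) `h = single γ₀ 1 * unit`; with `γ = γ₀ / n` the element `u = single (-γ) 1 * y` has `uⁿ` a unit,
so it is a unit of `O`. (3) `u` is a root of a polynomial `p ≠ 0` over Hahn series; dividing by a
coefficient of least order all coefficients have order `≥ 0` and one has order `0`. Replace every
coefficient by its constant term: `q ≠ 0` over `k`, `q(u)` is in the maximal ideal of `O` (a series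
of order `> 0` is a nonunit), `q = a ∏ (T - cᵢ)`, so some `u - cᵢ` is a nonunit; `cᵢ ≠ 0` as `u`
is a unit. -/
def S_hs : Prop := ∀ (k L : Type) [Field k] [IsAlgClosed k] [Field L]
  [Algebra (HahnSeries ℚ k) L] [Algebra.IsAlgebraic (HahnSeries ℚ k) L] (O : ValuationSubring L),
  (∀ f : HahnSeries ℚ k, algebraMap (HahnSeries ℚ k) L f ∈ O ↔ 0 ≤ f.orderTop) →
  ∀ y : L, y ≠ 0 → ∃ (γ : ℚ) (c : k), c ≠ 0 ∧
    algebraMap (HahnSeries ℚ k) L (HahnSeries.single (-γ) 1) * y -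
      algebraMap (HahnSeries ℚ k) L (HahnSeries.C c) ∈ O.nonunits

/-- piece HZ: if every nonzero element has a leading term then every element is a Hahn series.
Proof (Zorn): consider the series `s` such that for all `γ ∈ supp s` the element
`single (-γ) 1 * (y - s)` is a nonunit of `O`, ordered by: `s ⊑ t` iff `s` and `t` agree at all
`δ ≤ γ` with `γ ∈ supp s`. A chain has the upper bound `s*` with `s*(δ) = t(δ)` if `δ ≤ γ` for
some `γ ∈ supp t`, `t` in the chain, and `0` otherwise (its support is well ordered: below an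
element of it the support agrees with that of some `t`). For a maximal `s` with `y ≠ s` let
`γ, c` be the leading term of `y - s`; `γ` is larger than all elements of `supp s`, and
`s + single γ c` is larger than `s`. -/
def S_hz : Prop := ∀ (k L : Type) [Field k] [Field L] [Algebra (HahnSeries ℚ k) L]
  (O : ValuationSubring L),
  (∀ f : HahnSeries ℚ k, algebraMap (HahnSeries ℚ k) L f ∈ O ↔ 0 ≤ f.orderTop) →
  (∀ y : L, y ≠ 0 → ∃ (γ : ℚ) (c : k), c ≠ 0 ∧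
    algebraMap (HahnSeries ℚ k) L (HahnSeries.single (-γ) 1) * y -
      algebraMap (HahnSeries ℚ k) L (HahnSeries.C c) ∈ O.nonunits) →
  ∀ y : L, ∃ s : HahnSeries ℚ k, algebraMap (HahnSeries ℚ k) L s = y

/-- piece HA: `theorem p_ha (hv : S_hv) (hs : S_hs) (hz : S_hz) : S_hahn`.
Proof: an irreducible polynomial `p` has a root in `L = AdjoinRoot p`, an algebraic extension; by
the three pieces the root is a Hahn series. -/
def S_hahn : Prop := ∀ (k : Type) [Field k] [IsAlgClosed k], IsAlgClosed (HahnSeries ℚ k)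

/-! ### projections and distributivity -/

/-- piece PROJ: `theorem p_proj (h : S_hahn) : S_proj`. A projection of `K_R` to `K_A` for a
hyperplane `A` of `R`.
Proof: `F = clF (expSet A)` is algebraically closed, `τ = exp b` is transcendental over `F`
(see exists_scaling, cl_inf), `L = clF (expSet R)` is algebraic over `F(τ)`. Map
`F(τ) → HahnSeries ℚ F`, `τ ↦ single 1 1`, and extend to `ι : L → HahnSeries ℚ F` (algebraically
closed, `IsAlgClosed.lift`). Let `Pr y` be the coefficient of `ι y` at `0`. Clearly `Pr y = y` for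
`y ∈ F`. Let `B ≤ R`. If `B ≤ A` this is all. Otherwise `B = (A ⊓ B) ⊔ ℚ (a + b)` with `a ∈ A`. Let
`F₀ = clF (expSet (A ⊓ B))`, also algebraically closed, and let `ψ` be the automorphism
`∑ f_q x^q ↦ ∑ f_q exp(q a) x^q` of `HahnSeries ℚ F`; it preserves the coefficient at `0`. The
elements of `K_B` are algebraic over `F₀(exp(a + b))` and
`ι (exp (a + b)) = exp(a) * single 1 1 = ψ (single 1 1)`. So `ι y` is algebraic over the image
under `ψ` of the subfield `HahnSeries ℚ F₀`, which is algebraically closed; so it lies in it and its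
coefficient at `0` is in `F₀`. -/
def S_proj : Prop := ∀ (R A : Submodule ℚ ℂ) (b : ℂ), Good R → A ≤ R → b ∈ R → b ∉ A →
  A ⊔ Submodule.span ℚ {b} = R →
  ∃ Pr : KK R →+ ℂ, (∀ y : KK R, (y : ℂ) ∈ KK A → Pr y = (y : ℂ)) ∧
    ∀ B ≤ R, ∀ y : KK R, (y : ℂ) ∈ KK B → Pr y ∈ KK (A ⊓ B)

/-- the sum of the spaces `K_M`, `M ∈ s` -/
noncomputable def SK (s : Multiset (Submodule ℚ ℂ)) : Submodule ℚ ℂ := (s.map KK).sup

/-- piece STAR: `theorem p_star (h : S_proj) : S_star`.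
Proof: for `A` a hyperplane of `R` write `z = ∑ z_B` and apply `Pr`: `z = Pr z = ∑ Pr z_B`. In general
induction on the dimension of `R`: take a hyperplane `A' ≥ A` of `R`; `z ∈ SK (s.map (A' ⊓ ·))` and
now everything is inside `A'`. -/
def S_star : Prop := ∀ R : Submodule ℚ ℂ, Good R → ∀ A ≤ R, ∀ s : Multiset (Submodule ℚ ℂ),
  (∀ B ∈ s, B ≤ R) → ∀ z ∈ KK A, z ∈ SK s → z ∈ SK (s.map (fun B => A ⊓ B))

/-- piece CDT: `theorem p_cdt (h : S_star) : S_cdt` (canonical decomposition).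
Proof: among the multisets `s` of subspaces of `R` with `z ∈ SK s` take one which is minimal for
`Relation.CutExpand (· < ·)` (well founded, Mathlib Logic/Hydra.lean; `<` is well founded on
subspaces of `R`). If `M ∈ s`, `M` not in `H` nor in `H'`, write `s = M ::ₘ s'`, `z = a + c` with
`a ∈ KK M`, `c ∈ SK s'`; then `a = z - c` is in `SK (H ::ₘ H' ::ₘ s')`, so by STAR in
`SK ((M ⊓ H) ::ₘ (M ⊓ H') ::ₘ s'.map (M ⊓ ·))`, so `z ∈ SK ((M ⊓ H) ::ₘ (M ⊓ H') ::ₘ s')`: this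
multiset is smaller. -/
def S_cdt : Prop := ∀ R : Submodule ℚ ℂ, Good R → ∀ z ∈ KK R,
  ∃ s : Multiset (Submodule ℚ ℂ), (∀ M ∈ s, M ≤ R) ∧ z ∈ SK s ∧
    ∀ H ≤ R, ∀ H' ≤ R, z ∈ KK H ⊔ KK H' → ∀ M ∈ s, M ≤ H ∨ M ≤ H'

/-! ### the probabilistic part -/

/-- piece CMP: compactness in a class, as `compactness'` in AA/LoSub.lean (same proof; the base
case is: if `𝒞 ⊥` then `⊥` is not co-small, otherwise nothing to prove). -/
def S_cmp : Prop := ∀ 𝒞 : Submodule ℚ ℂ → Prop, (∀ W1 W2, 𝒞 W1 → 𝒞 W2 → 𝒞 (W1 ⊓ W2)) →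
  (∀ W, 𝒞 W → ¬ CoSmall W) → ∀ (M : ℕ) (C : ℝ) (x₀ : ℕ), ∃ P : Finset ℕ,
    (∀ p ∈ P, p.Prime ∧ x₀ < p) ∧ ∀ W, Good W → 𝒞 W → finrank ℚ W ≤ M → C ≤ EW W P

/-- piece TWO: the two corner argument (compare four_corners in AA/Meas.lean).
Proof: for `Y` as in `Sm` put `X = s(Y)`, `Z = t(Y)` as in four_corners. With weights `w`,
`(∑_Y 1/b)² ≤ (∑_{x,z} [x z ∈ A] w_x w_z)² ≤ (∑_z w_z) ∑_z w_z (∑_x [x z ∈ A] w_x)²`
`= (∑_z w_z) ∑_{x,x',z} [x z ∈ A, x' z ∈ A] w_x w_x' w_z`, and the last triple sum is at most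
`5 ε₁ Z₁² Z₂`: `x ∉ F` or `x' ∉ F` (twice `ε₁`), `x ∈ B0 z`, `x' ∈ BA x z`, or `x, x' ∈ F` and
`z ∈ BB x x'`. -/
def S_two : Prop := ∀ (P₁ P₂ F : Finset ℕ), (∀ p ∈ P₁, p.Prime) → (∀ p ∈ P₂, p.Prime) →
  Disjoint P₁ P₂ → ∀ (A : Set ℕ) (ε₁ δ : ℝ), 0 ≤ ε₁ → 0 ≤ δ → 5 * ε₁ ≤ δ ^ 2 →
  Sm P₁ {s | s ∉ F} ε₁ →
  ∀ (B0 : ℕ → Set ℕ) (BA BB : ℕ → ℕ → Set ℕ),
  (∀ t, Sm P₁ (B0 t) ε₁) → (∀ s t, Sm P₁ (BA s t) ε₁) →
  (∀ s ∈ F, ∀ s' ∈ F, Sm P₂ (BB s s') ε₁) →
  (∀ s s' t, s ∈ Nat.factoredNumbers P₁ → s' ∈ Nat.factoredNumbers P₁ →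
    t ∈ Nat.factoredNumbers P₂ → s * t ∈ A → s' * t ∈ A →
    s ∈ B0 t ∨ s' ∈ BA s t ∨ t ∈ BB s s') →
  Sm (P₁ ∪ P₂) A δ

/-- piece CUT: a finite set carries almost all the mass -/
def S_cut : Prop := ∀ (P : Finset ℕ), (∀ p ∈ P, p.Prime) → ∀ ε : ℝ, 0 < ε →
  ∃ F : Finset ℕ, Sm P {s | s ∉ F} ε

/-- the event: some space between `U` and `R` which does not contain `V` captures `y` -/
def Ev (R V U : Submodule ℚ ℂ) (y : ℂ) : Prop := ∃ S, U ≤ S ∧ S ≤ R ∧ ¬ V ≤ S ∧ InK S y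

/-- the uniform smallness statement inside `R` -/
def CL (R V : Submodule ℚ ℂ) (a : ℕ) : Prop := ∀ (ε : ℝ), 0 < ε → ∀ x₀ : ℕ, ∃ P : Finset ℕ,
  (∀ p ∈ P, p.Prime ∧ x₀ < p) ∧ ∀ U ≤ R, finrank ℚ R ≤ finrank ℚ U + a → ∀ g : ℂ,
    Sm P {s | Ev R V U (g + ((Real.log (s : ℝ) : ℝ) : ℂ))} ε

/-- piece RR: one space for finitely many shifts.
Proof: `(F ⊔ KK V) ⊓ KK Kalg = KK V ⊔ F'` with `F'` finite dimensional (modular law); each of
finitely many generators of `F'` is in some `KK` of a finite dimensional space (exists_fd). -/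
def S_rr : Prop := ∀ V : Submodule ℚ ℂ, Good V → ∀ F : Submodule ℚ ℂ, FiniteDimensional ℚ F →
  ∃ R, Good R ∧ V ≤ R ∧ ∀ y ∈ F ⊔ KK V, ∀ S, Good S → y ∈ KK S → y ∈ KK R

/-- piece LIM: density zero up to every epsilon -/
def S_lim : Prop := ∀ D : Set ℕ, (∀ ε : ℝ, 0 < ε → ∃ D1 D2 : Set ℕ, (∀ b ∈ D, b ≠ 0 →
    b ∈ D1 ∨ b ∈ D2) ∧ LN D1 ∧ ∀ N : ℕ,
      ∑ b ∈ Finset.Icc 1 N, D2.indicator (fun b : ℕ => (b : ℝ)⁻¹) b ≤
        ε * ∑ b ∈ Finset.Icc 1 N, (b : ℝ)⁻¹) → LN D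

/-- piece EXV: for a co-small `V`, all but few primes have logarithms in `KK V`, apart from a finite
set `Q` of primes. Proof: as S_exs in AC/Stm.lean. -/
def S_exv : Prop := ∀ V : Submodule ℚ ℂ, CoSmall V → ∀ ε : ℝ, 0 < ε → ∃ Q : Finset ℕ,
  (∀ p ∈ Q, p.Prime) ∧ ∀ P : Finset ℕ, (∀ p ∈ P, p.Prime ∧ p ∉ Q ∧
    ((Real.log (p : ℝ) : ℝ) : ℂ) ∉ KK V) → ∑ p ∈ P, (p : ℝ)⁻¹ ≤ ε

end Pool.Agent.Lib.MP_c82530_nt.AD
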