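import Mathlib
import Pool.Agent.Lib.MP_c82530_nt.AD.Stm

set_option autoImplicit false

namespace Pool.Agent.Lib.MP_c82530_nt.AD

open Set Pool.Agent.Lib.MP_c82530_nt Pool.Agent.Lib.MP_c82530_nt.AA Module

lemma sm_empty {P : Finset ℕ} (hP : ∀ p ∈ P, p.Prime) {A : Set ℕ} (hA : ∀ b, b ∉ A) {ε : ℝ}
    (hε : 0 ≤ ε) : Sm P A ε := by
  intro Y hY hYA
  have : Y = ∅ := by
    rw [Finset.eq_empty_iff_forall_notMem]
    intro b hb
    exact hA b (hYA b hb)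
  rw [this, Finset.sum_empty]
  exact mul_nonneg hε (ZP_pos hP).le

lemma sm_iUnion {ι : Type*} {P : Finset ℕ} (I : Finset ι) (A : ι → Set ℕ) {ε : ℝ}
    (h : ∀ i ∈ I, Sm P (A i) ε) : Sm P {b | ∃ i ∈ I, b ∈ A i} (I.card * ε) := by
  classical
  intro Y hY hYA
  calc ∑ b ∈ Y, (b : ℝ)⁻¹ ≤ ∑ b ∈ Y, ∑ i ∈ I, (if b ∈ A i then (b : ℝ)⁻¹ else 0) := by
        apply Finset.sum_le_sum
        intro b hb
        obtain ⟨i, hi, hbi⟩ := hYA b hb
        have h1 : (b : ℝ)⁻¹ = if b ∈ A i then (b : ℝ)⁻¹ else 0 := by rw [if_pos hbi]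
        conv_lhs => rw [h1]
        apply Finset.single_le_sum (f := fun i => if b ∈ A i then (b : ℝ)⁻¹ else 0) _ hi
        intro j _
        by_cases hj : b ∈ A j
        · simp only [if_pos hj]; positivity
        · simp only [if_neg hj]; exact le_rfl
    _ = ∑ i ∈ I, ∑ b ∈ Y, (if b ∈ A i then (b : ℝ)⁻¹ else 0) := Finset.sum_comm
    _ ≤ ∑ i ∈ I, ε * ZP P := by
        apply Finset.sum_le_sum
        intro i hi
        exact (h i hi).sum_ite hY
    _ = _ := by rw [Finset.sum_const, nsmul_eq_mul]; ring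

lemma sm_ext (hzs : S_zs) (hsp : S_sp) {P1 P2 : Finset ℕ} (h1 : ∀ p ∈ P1, p.Prime)
    (h2 : ∀ p ∈ P2, p.Prime) (hd : Disjoint P1 P2) {E : ℂ → Prop} {ε : ℝ} (hε : 0 ≤ ε)
    (h : ∀ g : ℂ, Sm P1 {s | E (g + ((Real.log (s : ℝ) : ℝ) : ℂ))} ε) (g : ℂ) :
    Sm (P1 ∪ P2) {s | E (g + ((Real.log (s : ℝ) : ℝ) : ℂ))} ε := by
  apply Sm.union hzs hsp h1 h2 hd hε
  intro t ht
  have ht0 := Nat.ne_zero_of_mem_factoredNumbers ht
  apply (h (g + ((Real.log (t : ℝ) : ℝ) : ℂ))).mono' h1 _ le_rfl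
  intro s hs hs0
  have hs' : E (g + ((Real.log ((s * t : ℕ) : ℝ) : ℝ) : ℂ)) := hs
  rw [log_mul_cast hs0 ht0] at hs'
  have e : g + ((Real.log (t : ℝ) : ℝ) : ℂ) + ((Real.log (s : ℝ) : ℝ) : ℂ) =
    g + (((Real.log (s : ℝ) : ℝ) : ℂ) + ((Real.log (t : ℝ) : ℝ) : ℂ)) := by ring
  change E _
  rw [e]; exact hs'

lemma disj_of_gt {P1 P2 : Finset ℕ} (h : ∀ p ∈ P2, P1.sup id < p) : Disjoint P1 P2 := by
  rw [Finset.disjoint_left]
  intro p hp hp'
  have h3 : p ≤ P1.sup id := Finset.le_sup (f := id) hp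
  have h4 := h p hp'
  omega

theorem CL_zero {R V : Submodule ℚ ℂ} (hR : Good R) (hVR : V ≤ R) : CL R V 0 := by
  intro ε hε x₀
  refine ⟨∅, by simp, ?_⟩
  intro U hUR hd g
  apply sm_empty (by simp) _ hε.le
  rintro b ⟨S, h1, h2, h3, h4⟩
  have := hR.1
  have hUR' : U = R := Submodule.eq_of_le_of_finrank_le hUR (by simpa using hd)
  exact h3 (hVR.trans (hUR' ▸ h1))

/-- the first set of primes -/
lemma exists_P1 (hlo : S_lo) (hzs : S_zs) (hsp : S_sp) (hcmp : S_cmp) {R V : Submodule ℚ ℂ}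
    (hR : Good R) (hmin : ∀ W, CoSmall W → V ≤ W) {a : ℕ} (hCL : CL R V a) {ε : ℝ} (hε : 0 < ε)
    (x₀ : ℕ) :
    ∃ P : Finset ℕ, (∀ p ∈ P, p.Prime ∧ x₀ < p) ∧
      (∀ U ≤ R, finrank ℚ R ≤ finrank ℚ U + a → ∀ g : ℂ,
        Sm P {s | Ev R V U (g + ((Real.log (s : ℝ) : ℝ) : ℂ))} ε) ∧
      (∀ U ≤ R, ¬ V ≤ U → ∀ g : ℂ, Sm P {s | InK U (g + ((Real.log (s : ℝ) : ℝ) : ℂ))} ε) := by
  classical
  obtain ⟨C, hC, h⟩ := lo_sub hlo
  obtain ⟨Pa, hPa, ha⟩ := hCL ε hε x₀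
  obtain ⟨Pb, hPb, hb⟩ := hcmp (fun W => ¬ V ≤ W) (fun W1 W2 h1 _ h3 => h1 (h3.trans inf_le_left))
    (fun W h1 h2 => h1 (hmin W h2)) (finrank ℚ R) ((C / ε) ^ 2) (max x₀ (Pa.sup id))
  have hd : Disjoint Pa Pb := disj_of_gt fun p hp =>
    lt_of_le_of_lt (le_max_right _ _) (hPb p hp).2
  have h1 : ∀ p ∈ Pa, p.Prime := fun p hp => (hPa p hp).1
  have h2 : ∀ p ∈ Pb, p.Prime := fun p hp => (hPb p hp).1
  refine ⟨Pa ∪ Pb, ?_, ?_, ?_⟩
  · intro p hp
    rcases Finset.mem_union.mp hp with hp | hp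
    · exact hPa p hp
    · exact ⟨h2 p hp, lt_of_le_of_lt (le_max_left _ _) (hPb p hp).2⟩
  · intro U hU hdim g
    exact sm_ext hzs hsp h1 h2 hd hε.le (E := Ev R V U) (fun g => ha U hU hdim g) g
  · intro U hU hVU g
    rw [Finset.union_comm]
    refine sm_ext hzs hsp h2 h1 hd.symm hε.le (E := InK U) (fun g => ?_) g
    have hR1 := hR.1
    have hE1 : (C / ε) ^ 2 ≤ EK (KK U) Pb := hb U (hR.of_le hU) hVU (Submodule.finrank_mono hU)
    have hpos : 0 < (C / ε) ^ 2 := by positivity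
    refine (h Pb h2 (KK U) g (hpos.trans_le hE1)).mono h2 ?_ ?_
    · intro b hb
      change g + ((Real.log (b : ℝ) : ℝ) : ℂ) ∈ KK U
      rw [mem_KK]
      exact hb
    · rw [div_le_iff₀ (Real.sqrt_pos.mpr (hpos.trans_le hE1))]
      have h1 : C / ε ≤ √(EK (KK U) Pb) := Real.le_sqrt_of_sq_le hE1
      calc C = ε * (C / ε) := by field_simp
        _ ≤ ε * √(EK (KK U) Pb) := mul_le_mul_of_nonneg_left h1 hε.le

lemma sk_le {s : Multiset (Submodule ℚ ℂ)} {T : Submodule ℚ ℂ} (h : ∀ M ∈ s, M ≤ T) :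
    SK s ≤ KK T := by
  unfold SK
  rw [Multiset.sup_le]
  intro K hK
  rw [Multiset.mem_map] at hK
  obtain ⟨M, hM, rfl⟩ := hK
  intro z hz
  rw [mem_KK] at hz ⊢
  exact hz.mono (h M hM)

theorem CL_succ (hlo : S_lo) (hzs : S_zs) (hsp : S_sp) (hcmp : S_cmp) (htwo : S_two)
    (hcut : S_cut) (hcdt : S_cdt) {R V : Submodule ℚ ℂ} (hR : Good R)
    (hmin : ∀ W, CoSmall W → V ≤ W) {a : ℕ} (hCL : CL R V a) : CL R V (a + 1) := by
  classical
  intro ε hε x₀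
  have hε1 : 0 < ε ^ 2 / 5 := by positivity
  obtain ⟨P1, hP1, ha1, hb1⟩ := exists_P1 hlo hzs hsp hcmp hR hmin hCL hε1 x₀
  have h1 : ∀ p ∈ P1, p.Prime := fun p hp => (hP1 p hp).1
  obtain ⟨F, hF⟩ := hcut P1 h1 _ hε1
  have hfam : ∀ z : ℂ, ∃ s : Multiset (Submodule ℚ ℂ), z ∈ KK R → (∀ M ∈ s, M ≤ R) ∧ z ∈ SK s ∧
      ∀ H ≤ R, ∀ H' ≤ R, z ∈ KK H ⊔ KK H' → ∀ M ∈ s, M ≤ H ∨ M ≤ H' := by
    intro z
    by_cases hz : z ∈ KK R
    · obtain ⟨s, hs⟩ := hcdt R hR z hz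
      exact ⟨s, fun _ => hs⟩
    · exact ⟨0, fun h => absurd h hz⟩
  choose fam hfam using hfam
  set K : ℕ := F.sup (fun s => F.sup (fun s' =>
    Multiset.card (fam ((Real.log s : ℂ) - (Real.log s' : ℂ))))) with hK
  have hε2 : 0 < (ε ^ 2 / 5) / 2 ^ K := by positivity
  obtain ⟨P2, hP2, hb2⟩ := hCL _ hε2 (max x₀ (P1.sup id))
  have h2 : ∀ p ∈ P2, p.Prime := fun p hp => (hP2 p hp).1
  have hd : Disjoint P1 P2 := disj_of_gt fun p hp =>
    lt_of_le_of_lt (le_max_right _ _) (hP2 p hp).2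
  refine ⟨P1 ∪ P2, ?_, fun U hUR hdim g => ?_⟩
  · intro p hp
    rcases Finset.mem_union.mp hp with hp | hp
    · exact hP1 p hp
    · exact ⟨h2 p hp, lt_of_le_of_lt (le_max_left _ _) (hP2 p hp).2⟩
  have hR1 := hR.1
  have hUg : Good U := hR.of_le hUR
  have hU1 := hUg.1
  -- larger spaces have smaller codimension
  have hdim' : ∀ T ≤ R, U < T → finrank ℚ R ≤ finrank ℚ T + a := by
    intro T hT hUT
    have := (hR.of_le hT).1
    have h3 := Submodule.finrank_lt_finrank_of_lt hUT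
    omega
  refine htwo P1 P2 F h1 h2 hd _ (ε ^ 2 / 5) ε hε1.le hε.le (by linarith) hF
    (fun t => {s | ¬ V ≤ U ∧ InK U (g + (Real.log t : ℂ) + ((Real.log (s : ℝ) : ℝ) : ℂ))})
    (fun s t => {s' | ∃ T, Good T ∧ U < T ∧ T ≤ R ∧ InK T (g + (Real.log s : ℂ) + (Real.log t : ℂ)) ∧
      (∀ S, Good S → U ≤ S → InK S (g + (Real.log s : ℂ) + (Real.log t : ℂ)) → T ≤ S) ∧
        Ev R V T (g + (Real.log t : ℂ) + ((Real.log (s' : ℝ) : ℝ) : ℂ))})
    (fun s s' => {t | ∃ I ∈ (fam ((Real.log s : ℂ) - (Real.log s' : ℂ))).powerset.toFinset,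
      t ∈ {t : ℕ | U < U ⊔ Multiset.sup I ∧ U ⊔ Multiset.sup I ≤ R ∧ Ev R V (U ⊔ Multiset.sup I)
        (g + (Real.log s : ℂ) + ((Real.log (t : ℝ) : ℝ) : ℂ))}})
    ?_ ?_ ?_ ?_
  · intro t
    by_cases hVU : V ≤ U
    · exact sm_empty h1 (fun b hb => hb.1 hVU) hε1.le
    · exact (hb1 U hUR hVU (g + (Real.log t : ℂ))).mono h1 (fun b hb => hb.2) le_rfl
  · intro s t
    by_cases hex : ∃ T, Good T ∧ U < T ∧ T ≤ R ∧ InK T (g + (Real.log s : ℂ) + (Real.log t : ℂ)) ∧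
      (∀ S, Good S → U ≤ S → InK S (g + (Real.log s : ℂ) + (Real.log t : ℂ)) → T ≤ S)
    · obtain ⟨T, t1, t2, t3, t4, t5⟩ := hex
      refine (ha1 T t3 (hdim' T t3 t2) (g + (Real.log t : ℂ))).mono h1 ?_ le_rfl
      rintro b ⟨T', t1', t2', t3', t4', t5', hb⟩
      have : T' = T := le_antisymm (t5' T t1 t2.le t4) (t5 T' t1' t2'.le t4')
      rw [this] at hb
      exact hb
    · apply sm_empty h1 _ hε1.le
      rintro b ⟨T, t1, t2, t3, t4, t5, _⟩
      exact hex ⟨T, t1, t2, t3, t4, t5⟩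
  · intro s hs s' hs'
    have h3 := sm_iUnion (P := P2)
      (fam ((Real.log s : ℂ) - (Real.log s' : ℂ))).powerset.toFinset
      (fun I => {t : ℕ | U < U ⊔ Multiset.sup I ∧ U ⊔ Multiset.sup I ≤ R ∧
        Ev R V (U ⊔ Multiset.sup I) (g + (Real.log s : ℂ) + ((Real.log (t : ℝ) : ℝ) : ℂ))})
      (ε := (ε ^ 2 / 5) / 2 ^ K) ?_
    · refine h3.mono h2 (fun b hb => hb) ?_
      have h4 : ((fam ((Real.log s : ℂ) - (Real.log s' : ℂ))).powerset.toFinset.card : ℝ) ≤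
          2 ^ K := by
        have h5 : (fam ((Real.log s : ℂ) - (Real.log s' : ℂ))).powerset.toFinset.card ≤ 2 ^ K := by
          refine (Multiset.toFinset_card_le _).trans ?_
          rw [Multiset.card_powerset]
          apply Nat.pow_le_pow_right (by norm_num)
          rw [hK]
          refine le_trans ?_ (Finset.le_sup (f := fun s : ℕ => F.sup (fun s' : ℕ =>
            Multiset.card (fam ((Real.log s : ℂ) - (Real.log s' : ℂ))))) hs)
          exact Finset.le_sup (f := fun s' : ℕ =>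
            Multiset.card (fam ((Real.log s : ℂ) - (Real.log s' : ℂ)))) hs'
        exact_mod_cast h5
      calc _ ≤ 2 ^ K * ((ε ^ 2 / 5) / 2 ^ K) := mul_le_mul_of_nonneg_right h4 hε2.le
        _ = ε ^ 2 / 5 := by field_simp
    · intro I _
      by_cases hI : U < U ⊔ Multiset.sup I ∧ U ⊔ Multiset.sup I ≤ R
      · exact (hb2 _ hI.2 (hdim' _ hI.2 hI.1) (g + (Real.log s : ℂ))).mono h2
          (fun b hb => hb.2.2) le_rfl
      · exact sm_empty h2 (fun b hb => hI ⟨hb.1, hb.2.1⟩) hε2.le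
  · intro s s' t hs hs' ht hst hst'
    have hs0 := Nat.ne_zero_of_mem_factoredNumbers hs
    have hs0' := Nat.ne_zero_of_mem_factoredNumbers hs'
    have ht0 := Nat.ne_zero_of_mem_factoredNumbers ht
    obtain ⟨S, c1, c2, c3, c4⟩ := hst
    obtain ⟨S', d1, d2, d3, d4⟩ := hst'
    rw [log_mul_cast hs0 ht0, ← add_assoc] at c4
    rw [log_mul_cast hs0' ht0, ← add_assoc] at d4
    obtain ⟨T1, t1, t2, t3, t4⟩ := exists_least ⟨S, hR.of_le c2, c1, c4⟩
    obtain ⟨T4, u1, u2, u3, u4⟩ := exists_least ⟨S', hR.of_le d2, d1, d4⟩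
    have hT1S : T1 ≤ S := t4 S (hR.of_le c2) c1 c4
    have hT4S : T4 ≤ S' := u4 S' (hR.of_le d2) d1 d4
    have hT1R : T1 ≤ R := hT1S.trans c2
    have hT4R : T4 ≤ R := hT4S.trans d2
    have hVT1 : ¬ V ≤ T1 := fun h => c3 (h.trans hT1S)
    have hVT4 : ¬ V ≤ T4 := fun h => d3 (h.trans hT4S)
    by_cases hcase0 : T1 = U
    · left
      refine ⟨hcase0 ▸ hVT1, ?_⟩
      have e : g + (Real.log t : ℂ) + ((Real.log (s : ℝ) : ℝ) : ℂ) =
        g + (Real.log s : ℂ) + (Real.log t : ℂ) := by ring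
      rw [e, ← hcase0]
      exact t3
    have hUT1 : U < T1 := lt_of_le_of_ne t2 (Ne.symm hcase0)
    by_cases hcaseα : V ≤ T1 ⊔ T4
    · right; right
      have hz : (Real.log s : ℂ) - (Real.log s' : ℂ) ∈ KK T1 ⊔ KK T4 := by
        have e : (Real.log s : ℂ) - (Real.log s' : ℂ) =
          (g + (Real.log s : ℂ) + (Real.log t : ℂ)) - (g + (Real.log s' : ℂ) + (Real.log t : ℂ)) := by
          ring
        rw [e]
        apply Submodule.sub_mem
        · exact Submodule.mem_sup_left (mem_KK.mpr t3)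
        · exact Submodule.mem_sup_right (mem_KK.mpr u3)
      have hzR : (Real.log s : ℂ) - (Real.log s' : ℂ) ∈ KK R := by
        refine (sup_le ?_ ?_ : KK T1 ⊔ KK T4 ≤ KK R) hz
        · intro x hx
          rw [mem_KK] at hx ⊢
          exact hx.mono hT1R
        · intro x hx
          rw [mem_KK] at hx ⊢
          exact hx.mono hT4R
      obtain ⟨f1, f2, f3⟩ := hfam _ hzR
      have f4 := f3 T1 hT1R T4 hT4R hz
      set I := (fam ((Real.log s : ℂ) - (Real.log s' : ℂ))).filter (fun M => M ≤ T1) with hI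
      have hIs : Multiset.sup I ≤ T1 := by
        rw [Multiset.sup_le]
        intro M hM
        rw [hI, Multiset.mem_filter] at hM
        exact hM.2
      refine ⟨I, ?_, ?_, ?_, ?_⟩
      · rw [Multiset.mem_toFinset, Multiset.mem_powerset]
        exact Multiset.filter_le _ _
      · refine lt_of_le_of_ne le_sup_left ?_
        intro hUI
        apply hVT4
        have h5 : ∀ M ∈ fam ((Real.log s : ℂ) - (Real.log s' : ℂ)), M ≤ T4 := by
          intro M hM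
          rcases f4 M hM with h | h
          · have h6 : M ≤ Multiset.sup I := Multiset.le_sup (by
              rw [hI, Multiset.mem_filter]; exact ⟨hM, h⟩)
            exact (h6.trans (le_sup_right.trans hUI.ge)).trans u2
          · exact h
        have h6 : (Real.log s : ℂ) - (Real.log s' : ℂ) ∈ KK T4 := sk_le h5 f2
        have h7 : InK T4 (g + (Real.log s : ℂ) + (Real.log t : ℂ)) := by
          have e : g + (Real.log s : ℂ) + (Real.log t : ℂ) =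
            ((Real.log s : ℂ) - (Real.log s' : ℂ)) + (g + (Real.log s' : ℂ) + (Real.log t : ℂ)) := by
            ring
          rw [e]
          exact (mem_KK.mp h6).add u3
        have h8 : T1 ≤ T4 := t4 T4 u1 u2 h7
        rwa [sup_eq_right.mpr h8] at hcaseα
      · exact sup_le hUR (hIs.trans hT1R)
      · exact ⟨T1, sup_le t2 hIs, hT1R, hVT1, t3⟩
    · right; left
      refine ⟨T1, t1, hUT1, hT1R, t3, t4, T1 ⊔ T4, le_sup_left, sup_le hT1R hT4R, hcaseα, ?_⟩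
      have e : g + (Real.log t : ℂ) + ((Real.log (s' : ℝ) : ℝ) : ℂ) =
        g + (Real.log s' : ℂ) + (Real.log t : ℂ) := by ring
      rw [e]
      exact u3.mono le_sup_right

theorem CL_all (hlo : S_lo) (hzs : S_zs) (hsp : S_sp) (hcmp : S_cmp) (htwo : S_two)
    (hcut : S_cut) (hcdt : S_cdt) {R V : Submodule ℚ ℂ} (hR : Good R) (hVR : V ≤ R)
    (hmin : ∀ W, CoSmall W → V ≤ W) (a : ℕ) : CL R V a := by
  induction a with
  | zero => exact CL_zero hR hVR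
  | succ a ih => exact CL_succ hlo hzs hsp hcmp htwo hcut hcdt hR hmin ih

/-- inside one space -/
theorem LN_R (hlo : S_lo) (hzs : S_zs) (hsp : S_sp) (hcmp : S_cmp) (htwo : S_two)
    (hcut : S_cut) (hcdt : S_cdt) (hmt : S_mt2) {R V : Submodule ℚ ℂ} (hR : Good R) (hVR : V ≤ R)
    (hmin : ∀ W, CoSmall W → V ≤ W) (c : ℂ) :
    LN {b : ℕ | Ev R V ⊥ (c + ((Real.log (b : ℝ) : ℝ) : ℂ))} := by
  apply LN_of_small hmt
  intro ε hε
  obtain ⟨P, hP, hPs⟩ := CL_all hlo hzs hsp hcmp htwo hcut hcdt hR hVR hmin (finrank ℚ R) ε hε 0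
  refine ⟨P, fun p hp => (hP p hp).1, fun t ht => ?_⟩
  refine (hPs ⊥ bot_le (by omega) (c + ((Real.log (t : ℝ) : ℝ) : ℂ))).mono'
    (fun p hp => (hP p hp).1) ?_ le_rfl
  intro b hb hb0
  have hb' : Ev R V ⊥ (c + ((Real.log ((b * t : ℕ) : ℝ) : ℝ) : ℂ)) := hb
  rw [log_mul_cast hb0 ht] at hb'
  have e : c + ((Real.log (t : ℝ) : ℝ) : ℂ) + ((Real.log (b : ℝ) : ℝ) : ℂ) =
    c + (((Real.log (b : ℝ) : ℝ) : ℂ) + ((Real.log (t : ℝ) : ℝ) : ℂ)) := by ring
  change Ev R V ⊥ _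
  rw [e]; exact hb'

end Pool.Agent.Lib.MP_c82530_nt.AD
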