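import Mathlib
import Pool.Agent.Lib.MP_c82530_nt.AD.Claim
import Pool.Agent.Lib.MP_c82530_nt.AA.Fin
import Pool.Agent.Lib.MP_c82530_nt.AB.Stm

set_option autoImplicit false

namespace Pool.Agent.Lib.MP_c82530_nt.AD

open Set Pool.Agent.Lib.MP_c82530_nt Pool.Agent.Lib.MP_c82530_nt.AA Module Filter Topology

/-- integers whose prime factors have logarithms in one space -/
lemma log_mem_of_primes {K : Submodule ℚ ℂ} {b : ℕ} (hb : b ≠ 0)
    (h : ∀ p : ℕ, p.Prime → p ∣ b → ((Real.log (p : ℝ) : ℝ) : ℂ) ∈ K) :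
    ((Real.log (b : ℝ) : ℝ) : ℂ) ∈ K := by
  have h1 : b ∈ Nat.factoredNumbers b.primeFactors := by
    rw [Nat.mem_factoredNumbers]
    refine ⟨hb, fun p hp => ?_⟩
    rw [Nat.mem_primeFactors]
    exact ⟨Nat.prime_of_mem_primeFactorsList hp, Nat.dvd_of_mem_primeFactorsList hp, hb⟩
  rw [log_eq_sum h1]
  refine Submodule.sum_mem _ fun p hp => Submodule.smul_mem _ _ (h p ?_ ?_)
  · exact Nat.prime_of_mem_primeFactors hp
  · exact Nat.dvd_of_mem_primeFactors hp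

/-- all spaces which do not contain `V` -/
theorem LN_all (hlo : S_lo) (hzs : S_zs) (hsp : S_sp) (hcmp : S_cmp) (htwo : S_two)
    (hcut : S_cut) (hcdt : S_cdt) (hmt : S_mt2) (hrr : S_rr) (hlim : S_lim) (hexv : S_exv)
    (hfra : AB.S_fra) {V : Submodule ℚ ℂ} (hV : CoSmall V) (hmin : ∀ W, CoSmall W → V ≤ W)
    (c : ℂ) :
    LN {b : ℕ | ∃ S, Good S ∧ ¬ V ≤ S ∧ InK S (c + ((Real.log (b : ℝ) : ℝ) : ℂ))} := by
  classical
  apply hlim
  intro ε hε
  obtain ⟨Q, hQ, hQs⟩ := hexv V hV ε hε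
  set F : Submodule ℚ ℂ := Submodule.span ℚ
    (insert c ((fun p : ℕ => ((Real.log (p : ℝ) : ℝ) : ℂ)) '' (Q : Set ℕ))) with hF
  have hFd : FiniteDimensional ℚ F :=
    FiniteDimensional.span_of_finite ℚ ((Q.finite_toSet.image _).insert c)
  obtain ⟨R, hR, hVR, hRR⟩ := hrr V hV.1 F hFd
  set A : Set ℕ := {p : ℕ | p ∈ Q ∨ ((Real.log (p : ℝ) : ℝ) : ℂ) ∈ KK V} with hA
  refine ⟨{b : ℕ | Ev R V ⊥ (c + ((Real.log (b : ℝ) : ℝ) : ℂ))},
    {b : ℕ | ¬ ∀ p : ℕ, p.Prime → p ∣ b → p ∈ A}, ?_,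
    LN_R hlo hzs hsp hcmp htwo hcut hcdt hmt hR hVR hmin c, ?_⟩
  · rintro b ⟨S, hS, hVS, hK⟩ hb0
    by_cases hbA : ∀ p : ℕ, p.Prime → p ∣ b → p ∈ A
    · left
      have hy : c + ((Real.log (b : ℝ) : ℝ) : ℂ) ∈ F ⊔ KK V := by
        apply Submodule.add_mem
        · exact Submodule.mem_sup_left (Submodule.subset_span (mem_insert _ _))
        · apply log_mem_of_primes hb0
          intro p hp hpb
          rcases hbA p hp hpb with h | h
          · exact Submodule.mem_sup_left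
              (Submodule.subset_span (mem_insert_of_mem _ ⟨p, h, rfl⟩))
          · exact Submodule.mem_sup_right h
      have h1 := hRR _ hy S hS (mem_KK.mpr hK)
      exact ⟨S ⊓ R, bot_le, inf_le_right, fun h => hVS (h.trans inf_le_left),
        InK.inf hS hR hK (mem_KK.mp h1)⟩
    · right; exact hbA
  · intro N
    have h1 := hfra A ε (fun P hP => hQs P fun p hp => ⟨(hP p hp).1, fun h => (hP p hp).2 (Or.inl h),
      fun h => (hP p hp).2 (Or.inr h)⟩) N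
    have h2 : ∑ b ∈ Finset.Icc 1 N, (b : ℝ)⁻¹ =
        ∑ b ∈ Finset.Icc 1 N, {b : ℕ | ∀ p : ℕ, p.Prime → p ∣ b → p ∈ A}.indicator
          (fun b : ℕ => (b : ℝ)⁻¹) b +
        ∑ b ∈ Finset.Icc 1 N, {b : ℕ | ¬ ∀ p : ℕ, p.Prime → p ∣ b → p ∈ A}.indicator
          (fun b : ℕ => (b : ℝ)⁻¹) b := by
      rw [← Finset.sum_add_distrib]
      apply Finset.sum_congr rfl
      intro b _
      by_cases hb : ∀ p : ℕ, p.Prime → p ∣ b → p ∈ A
      · rw [Set.indicator_of_mem (show b ∈ {b : ℕ | ∀ p : ℕ, p.Prime → p ∣ b → p ∈ A} from hb),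
          Set.indicator_of_notMem
            (show b ∉ {b : ℕ | ¬ ∀ p : ℕ, p.Prime → p ∣ b → p ∈ A} from fun h => h hb), add_zero]
      · rw [Set.indicator_of_notMem (show b ∉ {b : ℕ | ∀ p : ℕ, p.Prime → p ∣ b → p ∈ A} from hb),
          Set.indicator_of_mem
            (show b ∈ {b : ℕ | ¬ ∀ p : ℕ, p.Prime → p ∣ b → p ∈ A} from hb), zero_add]
    linarith

/-- a positive proportion of the integers has its logarithm in `K_V` -/
theorem pos_prop (hzs : S_zs) (hsp : S_sp) (hexv : S_exv) (hfra : AB.S_fra)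
    {V : Submodule ℚ ℂ} (hV : CoSmall V) : ∃ δ : ℝ, 0 < δ ∧ ∀ N : ℕ,
      δ * Real.log N ≤ ∑ b ∈ Finset.Icc 1 N,
        {b : ℕ | ((Real.log (b : ℝ) : ℝ) : ℂ) ∈ KK V}.indicator (fun b : ℕ => (b : ℝ)⁻¹) b := by
  classical
  obtain ⟨Q, hQ, hQs⟩ := hexv V hV (1 / 2) (by norm_num)
  have hZQ := ZP_pos hQ
  refine ⟨1 / (2 * ZP Q), by positivity, fun N => ?_⟩
  set A : Set ℕ := {p : ℕ | p ∈ Q ∨ ((Real.log (p : ℝ) : ℝ) : ℂ) ∈ KK V} with hA
  have h1 := hfra A (1 / 2) (fun P hP => hQs P fun p hp => ⟨(hP p hp).1,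
    fun h => (hP p hp).2 (Or.inl h), fun h => (hP p hp).2 (Or.inr h)⟩) N
  set P : Finset ℕ := Nat.primesBelow (N + 1) with hP
  have h1p : ∀ p ∈ P ∩ Q, p.Prime := fun p hp => hQ p (Finset.mem_inter.mp hp).2
  have h2p : ∀ p ∈ P \ Q, p.Prime := fun p hp => prime_primesBelow p (Finset.mem_sdiff.mp hp).1
  have hd : Disjoint (P ∩ Q) (P \ Q) := by
    rw [Finset.disjoint_left]
    intro p hp hp'
    exact (Finset.mem_sdiff.mp hp').2 (Finset.mem_inter.mp hp).2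
  choose! s hs t ht hst using hsp (P ∩ Q) (P \ Q) h1p h2p hd
  set Y : Finset ℕ := (Finset.Icc 1 N).filter (fun b => ∀ p : ℕ, p.Prime → p ∣ b → p ∈ A) with hY
  have hYb : ∀ b ∈ Y, b ≠ 0 ∧ b ≤ N ∧ ∀ p : ℕ, p.Prime → p ∣ b → p ∈ A := by
    intro b hb
    rw [hY, Finset.mem_filter, Finset.mem_Icc] at hb
    exact ⟨by omega, hb.1.2, hb.2⟩
  have hYP : ∀ b ∈ Y, b ∈ Nat.factoredNumbers ((P ∩ Q) ∪ (P \ Q)) := by
    intro b hb
    have e : (P ∩ Q) ∪ (P \ Q) = P := by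
      ext p
      simp only [Finset.mem_union, Finset.mem_inter, Finset.mem_sdiff]
      tauto
    rw [e]
    exact mem_fac_primesBelow (hYb b hb).1 (hYb b hb).2.1
  set G : Finset ℕ := (Finset.Icc 1 N).filter (fun b : ℕ => ((Real.log (b : ℝ) : ℝ) : ℂ) ∈ KK V)
    with hG
  have hts : ∀ b ∈ Y, t b ∈ G := by
    intro b hb
    have hs0 := Nat.ne_zero_of_mem_factoredNumbers (hs b (hYP b hb))
    have ht0 := Nat.ne_zero_of_mem_factoredNumbers (ht b (hYP b hb))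
    have e := hst b (hYP b hb)
    rw [hG, Finset.mem_filter, Finset.mem_Icc]
    refine ⟨⟨Nat.pos_of_ne_zero ht0, ?_⟩, ?_⟩
    · have : t b ≤ b := by
        conv_rhs => rw [e]
        exact Nat.le_mul_of_pos_left _ (Nat.pos_of_ne_zero hs0)
      exact this.trans (hYb b hb).2.1
    · apply log_mem_of_primes ht0
      intro p hp hpt
      have h3 : p ∈ P \ Q := by
        have h4 := ht b (hYP b hb)
        rw [Nat.mem_factoredNumbers] at h4
        exact h4.2 p ((Nat.mem_primeFactorsList ht0).mpr ⟨hp, hpt⟩)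
      rcases (hYb b hb).2.2 p hp (by rw [e]; exact hpt.mul_left _) with h | h
      · exact absurd h (Finset.mem_sdiff.mp h3).2
      · exact h
  have h2 : ∑ b ∈ Y, (b : ℝ)⁻¹ ≤ ZP Q * ∑ b ∈ G, (b : ℝ)⁻¹ := by
    have hinj : Set.InjOn (fun b => (s b, t b)) (Y : Set ℕ) := by
      intro x hx y hy hxy
      simp only [Prod.mk.injEq] at hxy
      rw [hst x (hYP x hx), hst y (hYP y hy), hxy.1, hxy.2]
    have h3 : ∑ b ∈ Y, (b : ℝ)⁻¹ = ∑ q ∈ Y.image (fun b => (s b, t b)),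
        (q.1 : ℝ)⁻¹ * (q.2 : ℝ)⁻¹ := by
      rw [Finset.sum_image hinj]
      apply Finset.sum_congr rfl
      intro b hb
      conv_lhs => rw [hst b (hYP b hb)]
      push_cast
      rw [mul_inv]
    rw [h3]
    calc ∑ q ∈ Y.image (fun b => (s b, t b)), (q.1 : ℝ)⁻¹ * (q.2 : ℝ)⁻¹
        ≤ ∑ q ∈ (Y.image s) ×ˢ G, (q.1 : ℝ)⁻¹ * (q.2 : ℝ)⁻¹ := by
          apply Finset.sum_le_sum_of_subset_of_nonneg
          · intro q hq
            obtain ⟨b, hb, rfl⟩ := Finset.mem_image.mp hq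
            exact Finset.mem_product.mpr ⟨Finset.mem_image_of_mem s hb, hts b hb⟩
          · intro q _ _
            positivity
      _ = (∑ a ∈ Y.image s, (a : ℝ)⁻¹) * ∑ b ∈ G, (b : ℝ)⁻¹ := by
          rw [Finset.sum_product, Finset.sum_mul_sum]
      _ ≤ ZP Q * ∑ b ∈ G, (b : ℝ)⁻¹ := by
          apply mul_le_mul_of_nonneg_right
          · apply hzs Q hQ
            intro a ha
            obtain ⟨b, hb, rfl⟩ := Finset.mem_image.mp ha
            have h4 := hs b (hYP b hb)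
            rw [Nat.mem_factoredNumbers] at h4 ⊢
            exact ⟨h4.1, fun p hp => (Finset.mem_inter.mp (h4.2 p hp)).2⟩
          · exact Finset.sum_nonneg fun b _ => by positivity
  rw [sum_indicator_eq] at h1
  rw [sum_indicator_eq]
  have h5 : Real.log N ≤ ∑ b ∈ Finset.Icc 1 N, (b : ℝ)⁻¹ := by
    have h6 := log_add_one_le_harmonic N
    rw [harmonic_eq_sum_Icc] at h6
    push_cast at h6
    refine le_trans ?_ h6
    rcases Nat.eq_zero_or_pos N with h7 | h7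
    · rw [h7]; simp
    · exact Real.log_le_log (by exact_mod_cast h7) (by linarith)
  have h6 : (1 / 2) * Real.log N ≤ ZP Q * ∑ b ∈ G, (b : ℝ)⁻¹ := by
    refine le_trans ?_ (h1.trans h2)
    have : (1 : ℝ) - 1 / 2 = 1 / 2 := by norm_num
    rw [this]
    linarith
  have h7 : 1 / (2 * ZP Q) * Real.log N = ((1 / 2) * Real.log N) / ZP Q := by
    field_simp
  change 1 / (2 * ZP Q) * Real.log N ≤ ∑ b ∈ G, (b : ℝ)⁻¹
  rw [h7, div_le_iff₀ hZQ]
  linarith

end Pool.Agent.Lib.MP_c82530_nt.AD
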