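import Pool.Agent.Lib.MP_c82530_nt.AD.Stm

set_option autoImplicit false

namespace Pool.Agent.Lib.MP_c82530_nt.AD

open Polynomial

/-- piece HA: Hahn series with exponents in `ℚ` over an algebraically closed field are
algebraically closed. -/
theorem p_ha (hv : S_hv) (hs : S_hs) (hz : S_hz) : S_hahn := by
  intro k _ _
  refine IsAlgClosed.of_exists_root (HahnSeries ℚ k) ?_
  intro p hmon hirr
  have : Fact (Irreducible p) := ⟨hirr⟩
  have : Module.Finite (HahnSeries ℚ k) (AdjoinRoot p) := hmon.finite_adjoinRoot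
  have : Algebra.IsAlgebraic (HahnSeries ℚ k) (AdjoinRoot p) :=
    Algebra.IsAlgebraic.of_finite _ _
  obtain ⟨O, hO⟩ := hv k (AdjoinRoot p)
  obtain ⟨s, hsr⟩ := hz k (AdjoinRoot p) O hO (hs k (AdjoinRoot p) O hO) (AdjoinRoot.root p)
  refine ⟨s, ?_⟩
  have h1 : aeval (AdjoinRoot.root p) p = 0 := by
    rw [AdjoinRoot.aeval_eq, AdjoinRoot.mk_self]
  rw [← hsr, aeval_algebraMap_apply, map_eq_zero] at h1
  simpa [coe_aeval_eq_eval] using h1

end Pool.Agent.Lib.MP_c82530_nt.AD
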