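import Mathlib
import Pool.Agent.Lib.MP_c82530_nt.AD.Stm

set_option autoImplicit false

/-!
# MP_c82530_nt, piece HS: leading terms in an algebraic extension of the field of Hahn series
-/

namespace Pool.Agent.Lib.MP_c82530_nt.AD

open Polynomial

section aux

variable {k L : Type} [Field k] [Field L] [Algebra (HahnSeries ℚ k) L] {O : ValuationSubring L}

private theorem hs_inv {f : HahnSeries ℚ k} (hf : f ≠ 0) : f.orderTop + f⁻¹.orderTop = 0 := by
  rw [← HahnSeries.orderTop_mul, mul_inv_cancel₀ hf, HahnSeries.orderTop_one]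

private theorem hs_one (hO : ∀ f : HahnSeries ℚ k, algebraMap (HahnSeries ℚ k) L f ∈ O ↔
    0 ≤ f.orderTop) {f : HahnSeries ℚ k} (hf : f ≠ 0) (h0 : f.orderTop = 0) :
    O.valuation (algebraMap (HahnSeries ℚ k) L f) = 1 := by
  have h1 : O.valuation (algebraMap (HahnSeries ℚ k) L f) ≤ 1 :=
    (O.valuation_le_one_iff _).2 ((hO f).2 h0.ge)
  have h2 : f⁻¹.orderTop = 0 := by
    have := hs_inv hf
    rwa [h0, zero_add] at this
  have h3 : O.valuation (algebraMap (HahnSeries ℚ k) L f⁻¹) ≤ 1 :=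
    (O.valuation_le_one_iff _).2 ((hO _).2 h2.ge)
  have h4 : O.valuation (algebraMap (HahnSeries ℚ k) L f) *
      O.valuation (algebraMap (HahnSeries ℚ k) L f⁻¹) = 1 := by
    rw [← map_mul, ← map_mul, mul_inv_cancel₀ hf, map_one, map_one]
  refine le_antisymm h1 ?_
  calc (1 : O.ValueGroup) = O.valuation (algebraMap (HahnSeries ℚ k) L f) *
        O.valuation (algebraMap (HahnSeries ℚ k) L f⁻¹) := h4.symm
    _ ≤ O.valuation (algebraMap (HahnSeries ℚ k) L f) * 1 := by gcongr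
    _ = _ := mul_one _

private theorem hs_lt (hO : ∀ f : HahnSeries ℚ k, algebraMap (HahnSeries ℚ k) L f ∈ O ↔
    0 ≤ f.orderTop) {f : HahnSeries ℚ k} (h0 : 0 < f.orderTop) :
    O.valuation (algebraMap (HahnSeries ℚ k) L f) < 1 := by
  rcases eq_or_ne f 0 with rfl | hf
  · rw [map_zero, map_zero]
    exact zero_lt_one
  have h1 : O.valuation (algebraMap (HahnSeries ℚ k) L f) ≤ 1 :=
    (O.valuation_le_one_iff _).2 ((hO f).2 h0.le)
  refine lt_of_le_of_ne h1 fun h2 => ?_
  have h4 : O.valuation (algebraMap (HahnSeries ℚ k) L f) *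
      O.valuation (algebraMap (HahnSeries ℚ k) L f⁻¹) = 1 := by
    rw [← map_mul, ← map_mul, mul_inv_cancel₀ hf, map_one, map_one]
  rw [h2, one_mul] at h4
  have h5 : 0 ≤ f⁻¹.orderTop := (hO _).1 ((O.valuation_le_one_iff _).1 h4.le)
  have h6 := hs_inv hf
  have h7 : (0 : WithTop ℚ) < f.orderTop + f⁻¹.orderTop :=
    lt_of_lt_of_le h0 (le_add_of_nonneg_right h5)
  rw [h6] at h7
  exact lt_irrefl _ h7

/-- two terms of a vanishing sum have the same value -/
private theorem hs_two (v : Valuation L O.ValueGroup) {s : Finset ℕ} {g : ℕ → L}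
    (hs : s.Nonempty) (h0 : ∀ i ∈ s, g i ≠ 0) (hsum : ∑ i ∈ s, g i = 0) :
    ∃ i ∈ s, ∃ j ∈ s, i < j ∧ v (g i) = v (g j) := by
  obtain ⟨i, hi, hmax⟩ := Finset.exists_max_image s (fun i => v (g i)) hs
  have hgi : v (g i) ≠ 0 := (Valuation.ne_zero_iff v).2 (h0 i hi)
  by_contra hcon
  push Not at hcon
  have h1 : ∀ j ∈ s.erase i, v (g j) < v (g i) := by
    intro j hj
    obtain ⟨hji, hj⟩ := Finset.mem_erase.1 hj
    refine lt_of_le_of_ne (hmax j hj) fun h => ?_
    rcases lt_or_gt_of_ne hji with h2 | h2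
    · exact hcon j hj i hi h2 h
    · exact hcon i hi j hj h2 h.symm
  have h2 := v.map_sum_lt hgi h1
  have h3 : ∑ j ∈ s.erase i, g j = - g i := by
    rw [← Finset.add_sum_erase s g hi] at hsum
    exact eq_neg_of_add_eq_zero_right hsum
  rw [h3, Valuation.map_neg] at h2
  exact lt_irrefl _ h2

private theorem hs_root (v : Valuation L O.ValueGroup) (u : L) (φ : k →+* L) (s : Multiset k)
    (h : v ((s.map (fun c => u - φ c)).prod) < 1) : ∃ c ∈ s, v (u - φ c) < 1 := by
  induction s using Multiset.induction_on with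
  | empty =>
    rw [Multiset.map_zero, Multiset.prod_zero, map_one] at h
    exact absurd h (lt_irrefl _)
  | cons a s ih =>
    rw [Multiset.map_cons, Multiset.prod_cons, map_mul] at h
    by_cases h1 : v (u - φ a) < 1
    · exact ⟨a, Multiset.mem_cons_self a s, h1⟩
    · by_cases h2 : v ((s.map (fun c => u - φ c)).prod) < 1
      · obtain ⟨c, hc, hc'⟩ := ih h2
        exact ⟨c, Multiset.mem_cons_of_mem hc, hc'⟩
      · push Not at h1 h2
        exact absurd h (not_lt.2 (one_le_mul h1 h2))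

end aux

theorem p_hs : S_hs := by
  intro k L _ _ _ _ _ O hO y hy
  obtain ⟨v, hv⟩ : ∃ v : Valuation L O.ValueGroup, v = O.valuation := ⟨_, rfl⟩
  have hone : ∀ f : HahnSeries ℚ k, f ≠ 0 → f.orderTop = 0 →
      v (algebraMap (HahnSeries ℚ k) L f) = 1 := by
    rw [hv]
    exact fun f hf h0 => hs_one hO hf h0
  have hlt : ∀ f : HahnSeries ℚ k, 0 < f.orderTop →
      v (algebraMap (HahnSeries ℚ k) L f) < 1 := by
    rw [hv]
    exact fun f h0 => hs_lt hO h0
  have hle : ∀ f : HahnSeries ℚ k, 0 ≤ f.orderTop →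
      v (algebraMap (HahnSeries ℚ k) L f) ≤ 1 := by
    rw [hv]
    exact fun f h0 => (O.valuation_le_one_iff _).2 ((hO f).2 h0)
  have hinj : Function.Injective (algebraMap (HahnSeries ℚ k) L) :=
    (algebraMap (HahnSeries ℚ k) L).injective
  -- step 1
  obtain ⟨p, hp0, hp⟩ := Algebra.IsAlgebraic.isAlgebraic (R := HahnSeries ℚ k) y
  have hsum : ∑ i ∈ p.support, algebraMap (HahnSeries ℚ k) L (p.coeff i) * y ^ i = 0 := by
    rw [← hp, aeval_eq_sum_range' (Nat.lt_succ_self _)]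
    rw [Finset.sum_subset (s₁ := p.support) (s₂ := Finset.range (p.natDegree + 1))]
    · refine Finset.sum_congr rfl fun i _ => ?_
      rw [Algebra.smul_def]
    · intro i hi
      rw [Finset.mem_range]
      exact Nat.lt_succ_of_le (le_natDegree_of_mem_supp i hi)
    · intro i _ hi
      rw [notMem_support_iff.1 hi, map_zero, zero_mul]
  obtain ⟨i, hi, j, hj, hij, hvij⟩ := hs_two v (support_nonempty.2 hp0) (fun i hi =>
    mul_ne_zero (by
      rw [Ne, map_eq_zero_iff _ hinj]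
      exact mem_support_iff.1 hi) (pow_ne_zero _ hy)) hsum
  have hai : p.coeff i ≠ 0 := mem_support_iff.1 hi
  have haj : p.coeff j ≠ 0 := mem_support_iff.1 hj
  obtain ⟨n, hn⟩ : ∃ n, j = i + n := Nat.exists_eq_add_of_le hij.le
  have hn0 : n ≠ 0 := by omega
  obtain ⟨h, hh⟩ : ∃ h, h = p.coeff i / p.coeff j := ⟨_, rfl⟩
  have hh0 : h ≠ 0 := by
    rw [hh]
    exact div_ne_zero hai haj
  have hvy : v (y ^ n) = v (algebraMap (HahnSeries ℚ k) L h) := by
    have h1 : v (algebraMap (HahnSeries ℚ k) L (p.coeff j)) ≠ 0 :=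
      (Valuation.ne_zero_iff v).2 (by rwa [Ne, map_eq_zero_iff _ hinj])
    have h2 : v (y ^ i) ≠ 0 := (Valuation.ne_zero_iff v).2 (pow_ne_zero _ hy)
    rw [map_mul, map_mul, hn, pow_add, map_mul, ← hn] at hvij
    rw [hh, map_div₀, map_div₀, eq_div_iff h1]
    apply mul_right_cancel₀ h2
    rw [hvij]
    ac_rfl
  -- step 2
  obtain ⟨γ₀, hγ₀⟩ : ∃ γ₀ : ℚ, h.orderTop = (γ₀ : WithTop ℚ) :=
    ⟨h.order, (HahnSeries.order_eq_orderTop_of_ne_zero hh0).symm⟩
  obtain ⟨γ, hγ⟩ : ∃ γ : ℚ, γ = γ₀ / n := ⟨_, rfl⟩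
  obtain ⟨u, hu⟩ : ∃ u : L, u = algebraMap (HahnSeries ℚ k) L (HahnSeries.single (-γ) 1) * y :=
    ⟨_, rfl⟩
  have hun : v (u ^ n) = 1 := by
    have h1 : HahnSeries.single (-γ) (1 : k) ^ n = HahnSeries.single (-γ₀) 1 := by
      rw [HahnSeries.single_pow, one_pow]
      congr 2
      rw [nsmul_eq_mul, hγ, mul_neg, mul_div_cancel₀]
      exact_mod_cast hn0
    rw [hu, mul_pow, ← map_pow, h1, map_mul, hvy, ← map_mul, ← map_mul]
    refine hone _ (mul_ne_zero ?_ hh0) ?_
    · rw [Ne, HahnSeries.single_eq_zero_iff]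
      exact one_ne_zero
    · rw [HahnSeries.orderTop_mul, HahnSeries.orderTop_single one_ne_zero, hγ₀]
      rw [← WithTop.coe_add, neg_add_cancel]
      rfl
  have hu1 : v u = 1 := by
    rw [map_pow] at hun
    exact (pow_eq_one_iff_of_nonneg zero_le hn0).1 hun
  have hu0 : u ≠ 0 := by
    intro h0
    rw [h0, map_zero] at hu1
    exact zero_ne_one hu1
  -- step 3
  obtain ⟨r, hr0, hr⟩ := Algebra.IsAlgebraic.isAlgebraic (R := HahnSeries ℚ k) u
  obtain ⟨i₁, hi₁, hmin⟩ := Finset.exists_min_image r.support (fun i => (r.coeff i).orderTop)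
    (support_nonempty.2 hr0)
  have hc₁ : r.coeff i₁ ≠ 0 := mem_support_iff.1 hi₁
  obtain ⟨b, hb⟩ : ∃ b : ℕ → HahnSeries ℚ k, b = fun i => (r.coeff i₁)⁻¹ * r.coeff i := ⟨_, rfl⟩
  have hb1 : b i₁ = 1 := by
    rw [hb]
    exact inv_mul_cancel₀ hc₁
  have hbo : ∀ i ∈ r.support, 0 ≤ (b i).orderTop := by
    intro i hi
    rw [hb]
    change 0 ≤ ((r.coeff i₁)⁻¹ * r.coeff i).orderTop
    rw [HahnSeries.orderTop_mul, ← hs_inv hc₁, add_comm]
    gcongr
    exact hmin i hi
  have hbs : ∑ i ∈ r.support, algebraMap (HahnSeries ℚ k) L (b i) * u ^ i = 0 := by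
    have h1 : ∑ i ∈ r.support, algebraMap (HahnSeries ℚ k) L (r.coeff i) * u ^ i = 0 := by
      rw [← hr, aeval_eq_sum_range' (Nat.lt_succ_self _)]
      rw [Finset.sum_subset (s₁ := r.support) (s₂ := Finset.range (r.natDegree + 1))]
      · refine Finset.sum_congr rfl fun i _ => ?_
        rw [Algebra.smul_def]
      · intro i hi
        rw [Finset.mem_range]
        exact Nat.lt_succ_of_le (le_natDegree_of_mem_supp i hi)
      · intro i _ hi
        rw [notMem_support_iff.1 hi, map_zero, zero_mul]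
    rw [hb]
    simp only [map_mul, mul_assoc]
    rw [← Finset.mul_sum, h1, mul_zero]
  obtain ⟨φ, hφ⟩ : ∃ φ : k →+* L, φ = (algebraMap (HahnSeries ℚ k) L).comp HahnSeries.C :=
    ⟨_, rfl⟩
  obtain ⟨q, hq⟩ : ∃ q : k[X], q = ∑ i ∈ r.support, monomial i ((b i).coeff 0) := ⟨_, rfl⟩
  have hq0 : q ≠ 0 := by
    intro h0
    have h1 : q.coeff i₁ = 1 := by
      rw [hq, finset_sum_coeff]
      simp only [coeff_monomial]
      rw [Finset.sum_ite_eq' r.support i₁, if_pos hi₁, hb1]
      simp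
    rw [h0, coeff_zero] at h1
    exact zero_ne_one h1
  have hqu : v (eval₂ φ u q) < 1 := by
    have h1 : eval₂ φ u q = ∑ i ∈ r.support, algebraMap (HahnSeries ℚ k) L
        (HahnSeries.C ((b i).coeff 0) - b i) * u ^ i := by
      rw [hq, eval₂_finset_sum]
      have h2 : ∑ i ∈ r.support, algebraMap (HahnSeries ℚ k) L
          (HahnSeries.C ((b i).coeff 0) - b i) * u ^ i = ∑ i ∈ r.support,
          algebraMap (HahnSeries ℚ k) L (HahnSeries.C ((b i).coeff 0)) * u ^ i := by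
        simp only [map_sub, sub_mul]
        rw [Finset.sum_sub_distrib, hbs, sub_zero]
      rw [h2]
      refine Finset.sum_congr rfl fun i _ => ?_
      rw [eval₂_monomial, hφ]
      rfl
    rw [h1]
    refine v.map_sum_lt one_ne_zero fun i hi => ?_
    rw [map_mul, map_pow, hu1, one_pow, mul_one]
    refine hlt _ ?_
    have h3 : ∀ g : ℚ, g ≤ 0 → (HahnSeries.C ((b i).coeff 0) - b i).coeff g = 0 := by
      intro g hg
      rw [HahnSeries.coeff_sub, HahnSeries.C_apply]
      rcases hg.lt_or_eq with h4 | h4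
      · rw [HahnSeries.coeff_single_of_ne h4.ne, HahnSeries.coeff_eq_zero_of_lt_orderTop, sub_zero]
        exact lt_of_lt_of_le (by exact_mod_cast h4) (hbo i hi)
      · rw [h4, HahnSeries.coeff_single_same, sub_self]
    by_contra hcon
    rw [not_lt] at hcon
    have h5 : HahnSeries.C ((b i).coeff 0) - b i ≠ 0 := by
      intro h6
      rw [h6, HahnSeries.orderTop_zero] at hcon
      exact absurd hcon (by simp)
    have h6 : (HahnSeries.C ((b i).coeff 0) - b i).order ≤ 0 := by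
      have h7 := HahnSeries.order_eq_orderTop_of_ne_zero h5
      rw [← h7] at hcon
      exact_mod_cast hcon
    exact HahnSeries.coeff_order_eq_zero.not.2 h5 (h3 _ h6)
  have hsplit := IsAlgClosed.splits q
  have hfac : eval₂ φ u q = φ q.leadingCoeff * (q.roots.map (fun c => u - φ c)).prod := by
    conv_lhs => rw [hsplit.eq_prod_roots]
    rw [eval₂_mul, eval₂_C, eval₂_multiset_prod, Multiset.map_map]
    congr 3
    funext c
    simp
  have hlead : v (φ q.leadingCoeff) = 1 := by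
    rw [hφ]
    refine hone _ ?_ ?_
    · exact HahnSeries.C_ne_zero (leadingCoeff_ne_zero.2 hq0)
    · rw [HahnSeries.C_apply, HahnSeries.orderTop_single (leadingCoeff_ne_zero.2 hq0)]
      rfl
  rw [hfac, map_mul, hlead, one_mul] at hqu
  obtain ⟨c, -, hc⟩ := hs_root v u φ q.roots hqu
  refine ⟨γ, c, ?_, ?_⟩
  · rintro rfl
    rw [map_zero, sub_zero, hu1] at hc
    exact lt_irrefl _ hc
  · rw [ValuationSubring.mem_nonunits_iff, ← hv, ← hu]
    rw [hφ] at hc
    exact hc

end Pool.Agent.Lib.MP_c82530_nt.AD
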