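import Pool.Agent.Lib.MP_c82530_nt.AD.Stm

set_option autoImplicit false

/-!
# Piece HV: extension of the valuation ring of Hahn series
-/

namespace Pool.Agent.Lib.MP_c82530_nt.AD

open Set Pool.Agent.Lib.MP_c82530_nt Pool.Agent.Lib.MP_c82530_nt.AA Module

private def hv_R (k : Type) [Field k] : Subring (HahnSeries ℚ k) where
  carrier := {f | 0 ≤ f.orderTop}
  mul_mem' := by
    intro a b ha hb
    simp only [Set.mem_setOf_eq] at ha hb ⊢
    rw [HahnSeries.orderTop_mul]
    exact add_nonneg ha hb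
  one_mem' := by
    simp only [Set.mem_setOf_eq]
    rw [HahnSeries.orderTop_one]
  add_mem' := by
    intro a b ha hb
    simp only [Set.mem_setOf_eq] at ha hb ⊢
    exact (le_min ha hb).trans HahnSeries.min_orderTop_le_orderTop_add
  zero_mem' := by
    simp only [Set.mem_setOf_eq]
    rw [HahnSeries.orderTop_zero]
    exact le_top
  neg_mem' := by
    intro a ha
    simp only [Set.mem_setOf_eq] at ha ⊢
    rw [HahnSeries.orderTop_neg]
    exact ha

private theorem hv_mem {k : Type} [Field k] (f : HahnSeries ℚ k) : f ∈ hv_R k ↔ 0 ≤ f.orderTop :=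
  Iff.rfl

private def hv_I (k L : Type) [Field k] [Field L] [Algebra (HahnSeries ℚ k) L] :
    Ideal ((hv_R k).map (algebraMap (HahnSeries ℚ k) L)) where
  carrier := {a | ∃ f : HahnSeries ℚ k, 0 < f.orderTop ∧ algebraMap (HahnSeries ℚ k) L f = a}
  add_mem' := by
    rintro a b ⟨f, hf, hfa⟩ ⟨g, hg, hgb⟩
    refine ⟨f + g, (lt_min hf hg).trans_le HahnSeries.min_orderTop_le_orderTop_add, ?_⟩
    rw [map_add, hfa, hgb]
    rfl
  zero_mem' := by
    refine ⟨0, ?_, ?_⟩
    · rw [HahnSeries.orderTop_zero]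
      exact WithTop.coe_lt_top 0
    · rw [map_zero]
      rfl
  smul_mem' := by
    rintro ⟨c, hc⟩ a ⟨f, hf, hfa⟩
    obtain ⟨g, hg, rfl⟩ := hc
    refine ⟨g * f, ?_, ?_⟩
    · rw [HahnSeries.orderTop_mul]
      exact lt_of_lt_of_le hf (le_add_of_nonneg_left hg)
    · rw [map_mul, hfa]
      rfl

theorem p_hv : S_hv := by
  intro k L _ _ _
  have hinj : Function.Injective (algebraMap (HahnSeries ℚ k) L) :=
    (algebraMap (HahnSeries ℚ k) L).injective
  have hI : hv_I k L ≠ ⊤ := by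
    intro h
    have h1 : (1 : (hv_R k).map (algebraMap (HahnSeries ℚ k) L)) ∈ hv_I k L := by
      rw [h]
      trivial
    obtain ⟨f, hf, hf1⟩ := h1
    have h2 : f = 1 := by
      apply hinj
      rw [hf1, map_one]
      rfl
    rw [h2, HahnSeries.orderTop_one] at hf
    exact lt_irrefl _ hf
  obtain ⟨O, hO1, hO2⟩ := Ideal.image_subset_nonunits_valuationSubring (hv_I k L) hI
  refine ⟨O, fun f => ⟨fun hf => ?_, fun hf => ?_⟩⟩
  · by_contra hlt
    push Not at hlt
    have hf0 : f ≠ 0 := by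
      rintro rfl
      rw [HahnSeries.orderTop_zero] at hlt
      exact not_top_lt hlt
    have h1 : f.orderTop + f⁻¹.orderTop = 0 := by
      rw [← HahnSeries.orderTop_mul, mul_inv_cancel₀ hf0, HahnSeries.orderTop_one]
    have h2 : 0 < f⁻¹.orderTop := by
      by_contra h3
      push Not at h3
      have h4 : f.orderTop + f⁻¹.orderTop < 0 := add_neg_of_neg_of_nonpos hlt h3
      rw [h1] at h4
      exact lt_irrefl _ h4
    have h3 : algebraMap (HahnSeries ℚ k) L f⁻¹ ∈ O.nonunits := by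
      apply hO2
      exact ⟨⟨algebraMap (HahnSeries ℚ k) L f⁻¹, ⟨f⁻¹, h2.le, rfl⟩⟩, ⟨f⁻¹, h2, rfl⟩, rfl⟩
    rw [map_inv₀, ValuationSubring.inv_mem_nonunits_iff] at h3
    rcases h3 with h3 | h3
    · exact hf0 ((map_eq_zero _).1 h3)
    · exact h3 hf
  · exact hO1 ⟨f, hf, rfl⟩

end Pool.Agent.Lib.MP_c82530_nt.AD
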