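import Pool.Agent.Lib.MP_c82530_nt.AD.Stm

/-!
Piece HZ: if every nonzero element has a leading term then every element is a Hahn series.
-/

namespace Pool.Agent.Lib.MP_c82530_nt.AD

section

variable {k L : Type} [Field k] [Field L] [Algebra (HahnSeries ℚ k) L] (O : ValuationSubring L)

private lemma hz_pos
    (hO : ∀ f : HahnSeries ℚ k, algebraMap (HahnSeries ℚ k) L f ∈ O ↔ 0 ≤ f.orderTop)
    (f : HahnSeries ℚ k) (hf : 0 < f.orderTop) :
    O.valuation (algebraMap (HahnSeries ℚ k) L f) < 1 := by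
  rw [← O.mem_nonunits_iff, O.mem_nonunits_iff_or]
  by_cases h0 : f = 0
  · left; rw [h0, map_zero]
  right
  rw [← map_inv₀, hO]
  intro h
  have h1 : (f * f⁻¹).orderTop = f.orderTop + f⁻¹.orderTop := HahnSeries.orderTop_mul _ _
  rw [mul_inv_cancel₀ h0, HahnSeries.orderTop_one] at h1
  have h2 : (0 : WithTop ℚ) < f.orderTop + f⁻¹.orderTop := by
    calc (0 : WithTop ℚ) < f.orderTop := hf
      _ = f.orderTop + 0 := by rw [add_zero]
      _ ≤ f.orderTop + f⁻¹.orderTop := by gcongr
  rw [← h1] at h2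
  exact lt_irrefl _ h2

private lemma hz_single_mul (γ δ : ℚ) :
    (HahnSeries.single γ (1 : k)) * HahnSeries.single δ (1 : k) =
      HahnSeries.single (γ + δ) (1 : k) := by
  rw [HahnSeries.single_mul_single, one_mul]

private lemma hz_single_ne (γ : ℚ) :
    algebraMap (HahnSeries ℚ k) L (HahnSeries.single γ (1 : k)) ≠ 0 := by
  rw [Ne, map_eq_zero]
  exact HahnSeries.single_ne_zero one_ne_zero

private lemma hz_cancel (γ : ℚ) (y : L) :
    algebraMap (HahnSeries ℚ k) L (HahnSeries.single γ (1 : k)) *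
      (algebraMap (HahnSeries ℚ k) L (HahnSeries.single (-γ) (1 : k)) * y) = y := by
  rw [← mul_assoc, ← map_mul, hz_single_mul, add_neg_cancel]
  have : (HahnSeries.single (0 : ℚ) (1 : k)) = 1 := rfl
  rw [this, map_one, one_mul]

/-- comparison with the valuation of a monomial -/
private lemma hz_iff (γ : ℚ) (y : L) :
    O.valuation (algebraMap (HahnSeries ℚ k) L (HahnSeries.single (-γ) (1 : k)) * y) < 1 ↔
    O.valuation y < O.valuation (algebraMap (HahnSeries ℚ k) L (HahnSeries.single γ (1 : k))) := by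
  have h0 : O.valuation (algebraMap (HahnSeries ℚ k) L (HahnSeries.single γ (1 : k))) ≠ 0 := by
    rw [Ne, map_eq_zero]; exact hz_single_ne γ
  conv_rhs => rw [← hz_cancel (k := k) γ y, map_mul]
  constructor
  · intro h
    calc _ < O.valuation (algebraMap (HahnSeries ℚ k) L (HahnSeries.single γ (1 : k))) * 1 := by
          exact (mul_lt_mul_iff_right₀ (zero_lt_iff.2 h0)).2 h
      _ = _ := mul_one _
  · intro h
    have h1 : O.valuation (algebraMap (HahnSeries ℚ k) L (HahnSeries.single γ (1 : k))) *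
        O.valuation (algebraMap (HahnSeries ℚ k) L (HahnSeries.single (-γ) (1 : k)) * y) <
        O.valuation (algebraMap (HahnSeries ℚ k) L (HahnSeries.single γ (1 : k))) * 1 := by
      rw [mul_one]; exact h
    exact (mul_lt_mul_iff_right₀ (zero_lt_iff.2 h0)).1 h1

private lemma hz_lt
    (hO : ∀ f : HahnSeries ℚ k, algebraMap (HahnSeries ℚ k) L f ∈ O ↔ 0 ≤ f.orderTop)
    (γ : ℚ) (f : HahnSeries ℚ k) (hf : (γ : WithTop ℚ) < f.orderTop) :
    O.valuation (algebraMap (HahnSeries ℚ k) L f) <
      O.valuation (algebraMap (HahnSeries ℚ k) L (HahnSeries.single γ (1 : k))) := by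
  rw [← hz_iff, ← map_mul]
  apply hz_pos O hO
  rw [HahnSeries.orderTop_mul, HahnSeries.orderTop_single one_ne_zero]
  cases h : f.orderTop with
  | top => exact WithTop.coe_lt_top _
  | coe q =>
    rw [h] at hf
    have hf' : γ < q := by exact_mod_cast hf
    have : (0 : ℚ) < -γ + q := by linarith
    exact_mod_cast this

private lemma hz_mono
    (hO : ∀ f : HahnSeries ℚ k, algebraMap (HahnSeries ℚ k) L f ∈ O ↔ 0 ≤ f.orderTop)
    {γ δ : ℚ} (h : γ < δ) :
    O.valuation (algebraMap (HahnSeries ℚ k) L (HahnSeries.single δ (1 : k))) <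
      O.valuation (algebraMap (HahnSeries ℚ k) L (HahnSeries.single γ (1 : k))) := by
  apply hz_lt O hO
  rw [HahnSeries.orderTop_single one_ne_zero]
  exact_mod_cast h

/-- The approximations of `y`. -/
private abbrev HzS (y : L) : Type :=
  {s : HahnSeries ℚ k // ∀ γ ∈ s.support, O.valuation (y - algebraMap (HahnSeries ℚ k) L s) <
    O.valuation (algebraMap (HahnSeries ℚ k) L (HahnSeries.single γ (1 : k)))}

private def HzR (s t : HahnSeries ℚ k) : Prop :=
  ∀ γ ∈ s.support, ∀ δ ≤ γ, s.coeff δ = t.coeff δ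

private lemma hz_trans {s t u : HahnSeries ℚ k} (h : HzR s t) (h' : HzR t u) : HzR s u := by
  intro γ hγ δ hδ
  have h1 := h γ hγ γ le_rfl
  have h2 : γ ∈ t.support := by
    rw [HahnSeries.mem_support, ← h1]; exact hγ
  rw [h γ hγ δ hδ, h' γ h2 δ hδ]

end

open Classical in
theorem p_hz : S_hz := by
  intro k L _ _ _ O hO hlead y
  obtain ⟨m, hm⟩ := exists_maximal_of_chains_bounded
    (α := HzS (k := k) O y) (r := fun s t => HzR s.1 t.1) (by
      intro c hc
      have hcomp : ∀ s ∈ c, ∀ t ∈ c, ∀ γ ∈ s.1.support, ∀ γ' ∈ t.1.support, ∀ δ, δ ≤ γ → δ ≤ γ' →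
          s.1.coeff δ = t.1.coeff δ := by
        intro s hs t ht γ hγ γ' hγ' δ h1 h2
        by_cases hst : s = t
        · rw [hst]
        rcases hc hs ht hst with h | h
        · exact h γ hγ δ h1
        · exact (h γ' hγ' δ h2).symm
      let P : ℚ → Prop := fun δ => ∃ t ∈ c, ∃ γ ∈ t.1.support, δ ≤ γ
      let g : ℚ → k := fun δ => if h : P δ then h.choose.1.coeff δ else 0
      have hg : ∀ t ∈ c, ∀ γ ∈ t.1.support, ∀ δ ≤ γ, g δ = t.1.coeff δ := by
        intro t ht γ hγ δ hδ
        have hP : P δ := ⟨t, ht, γ, hγ, hδ⟩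
        have hgd : g δ = hP.choose.1.coeff δ := dif_pos hP
        rw [hgd]
        obtain ⟨γ', hγ', hδ'⟩ := hP.choose_spec.2
        exact hcomp _ hP.choose_spec.1 t ht γ' hγ' γ hγ δ hδ' hδ
      have hg0 : ∀ δ, g δ ≠ 0 → ∃ t ∈ c, ∃ γ ∈ t.1.support, δ ≤ γ := by
        intro δ h
        by_contra hP
        exact h (dif_neg hP)
      have hpwo : (Function.support g).IsPWO := by
        rw [Set.isPWO_iff_isWF, Set.isWF_iff_no_descending_seq]
        intro f hf hall
        obtain ⟨t, ht, γ, hγ, hle⟩ := hg0 (f 0) (hall 0)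
        have hwf := t.1.isWF_support
        rw [Set.isWF_iff_no_descending_seq] at hwf
        refine hwf f hf ?_
        intro n
        have h1 : f n ≤ f 0 := hf.antitone (Nat.zero_le n)
        have h2 := hg t ht γ hγ (f n) (h1.trans hle)
        have h3 : g (f n) ≠ 0 := hall n
        rw [h2] at h3
        exact h3
      let s' : HahnSeries ℚ k := ⟨g, hpwo⟩
      have hs' : ∀ δ, s'.coeff δ = g δ := fun _ => rfl
      refine ⟨⟨s', ?_⟩, ?_⟩
      · intro γ hγ
        have hγ0 : g γ ≠ 0 := hγ
        obtain ⟨t, ht, γ', hγ', hle⟩ := hg0 γ hγ0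
        have h1 := hg t ht γ' hγ' γ hle
        have hγt : γ ∈ t.1.support := by
          rw [HahnSeries.mem_support, ← h1]; exact hγ0
        have e : y - algebraMap (HahnSeries ℚ k) L s' =
            (y - algebraMap (HahnSeries ℚ k) L t.1) +
              algebraMap (HahnSeries ℚ k) L (t.1 - s') := by
          rw [map_sub]; ring
        rw [e]
        refine lt_of_le_of_lt (O.valuation.map_add _ _) (max_lt (t.2 γ hγt) ?_)
        apply hz_lt O hO
        by_contra hcon
        rw [not_lt, ← not_lt] at hcon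
        apply hcon
        by_cases hz : t.1 - s' = 0
        · rw [hz, HahnSeries.orderTop_zero]; exact WithTop.coe_lt_top _
        rw [HahnSeries.orderTop_of_ne_zero hz]
        rw [WithTop.coe_lt_coe]
        by_contra hle2
        rw [not_lt] at hle2
        have hmem := (t.1 - s').isWF_support.min_mem (HahnSeries.support_nonempty_iff.2 hz)
        have hne : (t.1 - s').coeff ((t.1 - s').isWF_support.min
          (HahnSeries.support_nonempty_iff.2 hz)) ≠ 0 := hmem
        apply hne
        rw [HahnSeries.coeff_sub, hs', hg t ht γ' hγ' _ (hle2.trans hle), sub_self]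
      · intro t ht γ hγ δ hδ
        exact (hg t ht γ hγ δ hδ).symm) (fun h h' => hz_trans h h')
  refine ⟨m.1, ?_⟩
  by_contra hne
  have hz : y - algebraMap (HahnSeries ℚ k) L m.1 ≠ 0 := fun h => hne (sub_eq_zero.1 h).symm
  obtain ⟨γ, c, hc, hlt⟩ := hlead _ hz
  rw [O.mem_nonunits_iff] at hlt
  -- the valuation of y - m
  have hC : O.valuation (algebraMap (HahnSeries ℚ k) L (HahnSeries.C c)) = 1 := by
    have hC0 : (HahnSeries.C c : HahnSeries ℚ k) ≠ 0 := by
      rw [Ne, map_eq_zero]; exact hc
    apply le_antisymm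
    · rw [O.valuation_le_one_iff, hO]
      rw [HahnSeries.C_apply, HahnSeries.orderTop_single hc]
      exact le_rfl
    · have h1 : O.valuation (algebraMap (HahnSeries ℚ k) L (HahnSeries.C c⁻¹)) ≤ 1 := by
        rw [O.valuation_le_one_iff, hO]
        rw [HahnSeries.C_apply, HahnSeries.orderTop_single (inv_ne_zero hc)]
        exact le_rfl
      have h2 : O.valuation (algebraMap (HahnSeries ℚ k) L (HahnSeries.C c)) *
          O.valuation (algebraMap (HahnSeries ℚ k) L (HahnSeries.C c⁻¹)) = 1 := by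
        rw [← map_mul, ← map_mul, ← map_mul, mul_inv_cancel₀ hc, map_one, map_one, map_one]
      calc (1 : O.ValueGroup) = O.valuation (algebraMap (HahnSeries ℚ k) L (HahnSeries.C c)) *
          O.valuation (algebraMap (HahnSeries ℚ k) L (HahnSeries.C c⁻¹)) := h2.symm
        _ ≤ O.valuation (algebraMap (HahnSeries ℚ k) L (HahnSeries.C c)) * 1 := by gcongr
        _ = _ := mul_one _
  have hval1 : O.valuation (algebraMap (HahnSeries ℚ k) L (HahnSeries.single (-γ) (1 : k)) *
      (y - algebraMap (HahnSeries ℚ k) L m.1)) = 1 := by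
    have h1 := O.valuation.map_add_eq_of_lt_right (x := algebraMap (HahnSeries ℚ k) L
      (HahnSeries.single (-γ) (1 : k)) * (y - algebraMap (HahnSeries ℚ k) L m.1) -
      algebraMap (HahnSeries ℚ k) L (HahnSeries.C c))
      (y := algebraMap (HahnSeries ℚ k) L (HahnSeries.C c)) (by rw [hC]; exact hlt)
    rw [sub_add_cancel, hC] at h1
    exact h1
  have hγm : ∀ δ ∈ m.1.support, δ < γ := by
    intro δ hδ
    have h1 := m.2 δ hδ
    by_contra hle
    rw [not_lt] at hle
    -- v(y - m) = v γ
    have h2 : ¬ O.valuation (y - algebraMap (HahnSeries ℚ k) L m.1) <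
        O.valuation (algebraMap (HahnSeries ℚ k) L (HahnSeries.single γ (1 : k))) := by
      rw [← hz_iff, hval1]; exact lt_irrefl _
    apply h2
    refine lt_of_lt_of_le h1 ?_
    rcases hle.lt_or_eq with h | h
    · exact (hz_mono O hO h).le
    · rw [h]
  have hγ0 : m.1.coeff γ = 0 := by
    by_contra h
    exact lt_irrefl _ (hγm γ h)
  have hval2 : O.valuation (y - algebraMap (HahnSeries ℚ k) L (m.1 + HahnSeries.single γ c)) <
      O.valuation (algebraMap (HahnSeries ℚ k) L (HahnSeries.single γ (1 : k))) := by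
    rw [← hz_iff]
    have e : algebraMap (HahnSeries ℚ k) L (HahnSeries.single (-γ) (1 : k)) *
        (y - algebraMap (HahnSeries ℚ k) L (m.1 + HahnSeries.single γ c)) =
        algebraMap (HahnSeries ℚ k) L (HahnSeries.single (-γ) (1 : k)) *
        (y - algebraMap (HahnSeries ℚ k) L m.1) -
        algebraMap (HahnSeries ℚ k) L (HahnSeries.C c) := by
      have e1 : (HahnSeries.C c : HahnSeries ℚ k) =
          HahnSeries.single (-γ) (1 : k) * HahnSeries.single γ c := by
        rw [HahnSeries.single_mul_single, neg_add_cancel, one_mul, HahnSeries.C_apply]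
      rw [e1, map_add, map_mul]; ring
    rw [e]; exact hlt
  let m' : HzS (k := k) O y := ⟨m.1 + HahnSeries.single γ c, by
    intro δ hδ
    refine lt_of_lt_of_le hval2 ?_
    by_cases h : δ = γ
    · rw [h]
    · have : δ ∈ m.1.support := by
        rw [HahnSeries.mem_support] at hδ ⊢
        rw [HahnSeries.coeff_add, HahnSeries.coeff_single_of_ne h, add_zero] at hδ
        exact hδ
      exact (hz_mono O hO (hγm δ this)).le⟩
  have h1 : HzR m.1 m'.1 := by
    intro δ hδ ε hε
    have : ε ≠ γ := (lt_of_le_of_lt hε (hγm δ hδ)).ne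
    show m.1.coeff ε = (m.1 + HahnSeries.single γ c).coeff ε
    rw [HahnSeries.coeff_add, HahnSeries.coeff_single_of_ne this, add_zero]
  have h2 := hm m' h1
  have hco : (m.1 + HahnSeries.single γ c).coeff γ = c := by
    rw [HahnSeries.coeff_add, hγ0, HahnSeries.coeff_single_same, zero_add]
  have h3 : γ ∈ m'.1.support := by
    show (m.1 + HahnSeries.single γ c).coeff γ ≠ 0
    rw [hco]; exact hc
  have h4 := h2 γ h3 γ le_rfl
  have h5 : m'.1.coeff γ = c := hco
  rw [h5, hγ0] at h4
  exact hc h4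

end Pool.Agent.Lib.MP_c82530_nt.AD
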