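import Mathlib
import Pool.Agent.Lib.MP_c82530_nt.AD.Fin

set_option autoImplicit false

namespace Pool.Agent.Lib.MP_c82530_nt.AD

open Set Pool.Agent.Lib.MP_c82530_nt Pool.Agent.Lib.MP_c82530_nt.AA Module Filter Topology

/-- **main theorem** (with the pieces as hypotheses) -/
theorem main (hlo : S_lo) (hzs : S_zs) (hcs : S_cs) (hsp : S_sp) (hmt : S_mt2)
    (hze : ∀ P : Finset ℕ, (∀ p ∈ P, p.Prime) → ZP P ≤ Real.exp (2 * ∑ p ∈ P, (p : ℝ)⁻¹))
    (hcmp : S_cmp) (htwo : S_two) (hcut : S_cut) (hcdt : S_cdt) (hrr : S_rr) (hlim : S_lim)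
    (hexv : S_exv) (hfra : AB.S_fra) :
    ∃ V : Submodule ℚ ℂ, FiniteDimensional ℚ V ∧ (∀ v ∈ V, IsAlgebraic ℚ v) ∧
      (∀ v ∈ V, (starRingEnd ℂ) v ∈ V) ∧
      (V = ⊥ → ∀ (n : ℕ) (c : ℂ), LN {b : ℕ | ∃ α : Fin n → ℂ, (∀ i, IsAlgebraic ℚ (α i)) ∧
        LinearIndependent ℚ α ∧ ¬ AI α (c + ((Real.log (b : ℝ) : ℝ) : ℂ))}) ∧
      (V ≠ ⊥ → ∀ c : ℂ, LN {b : ℕ | ∃ (n : ℕ) (α : Fin n → ℂ), (∀ i, IsAlgebraic ℚ (α i)) ∧
        LinearIndependent ℚ α ∧ ¬ V ≤ Submodule.span ℚ (range α) ∧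
        ¬ AI α (c + ((Real.log (b : ℝ) : ℝ) : ℂ))}) ∧
      (V ≠ ⊥ → ∀ c : ℂ, Summable ({b : ℕ | ∃ (n : ℕ) (α : Fin n → ℂ), (∀ i, IsAlgebraic ℚ (α i)) ∧
        LinearIndependent ℚ α ∧ Disjoint (Submodule.span ℚ (range α)) V ∧
        ¬ AI α (c + ((Real.log (b : ℝ) : ℝ) : ℂ))}.indicator (fun b : ℕ => (b : ℝ)⁻¹))) ∧
      (V ≠ ⊥ → ∃ δ : ℝ, 0 < δ ∧ ∀ N : ℕ, δ * Real.log N ≤ ∑ b ∈ Finset.Icc 1 N,
        {b : ℕ | ∀ (n : ℕ) (α : Fin n → ℂ), (∀ i, IsAlgebraic ℚ (α i)) →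
          LinearIndependent ℚ α → V ≤ Submodule.span ℚ (range α) →
          ¬ AI α ((Real.log (b : ℝ) : ℝ) : ℂ)}.indicator (fun b : ℕ => (b : ℝ)⁻¹) b) := by
  classical
  by_cases hno : ∃ W, CoSmall W
  · obtain ⟨V, hV, hmin⟩ := exists_min_cosmall hno
    have hVne : V ≠ ⊥ := by
      rintro rfl
      exact not_cosmall_bot hV
    have hbd := bdd_disjoint hzs hsp hze hV
    refine ⟨V, hV.1.1, hV.1.2, conj_stable hV hmin, fun h => absurd h hVne, ?_, ?_, ?_⟩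
    · intro _ c
      apply (LN_all hlo hzs hsp hcmp htwo hcut hcdt hmt hrr hlim hexv hfra hV hmin c).mono
      rintro b ⟨n, α, hα, hlin, hVα, hAI⟩ _
      exact ⟨_, good_span hα, hVα, inK_of_dep hα hlin hAI⟩
    · intro _ c
      obtain ⟨C, hC⟩ := hbd c
      apply summable_of_sum_le (c := C)
      · intro n
        apply Set.indicator_nonneg
        intro n _; positivity
      · intro u
        have h1 : ∑ b ∈ u, ({b : ℕ | ∃ (n : ℕ) (α : Fin n → ℂ), (∀ i, IsAlgebraic ℚ (α i)) ∧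
            LinearIndependent ℚ α ∧ Disjoint (Submodule.span ℚ (range α)) V ∧
            ¬ AI α (c + ((Real.log (b : ℝ) : ℝ) : ℂ))}.indicator (fun b : ℕ => (b : ℝ)⁻¹)) b =
            ∑ b ∈ (u.filter (fun b => b ∈ {b : ℕ | ∃ (n : ℕ) (α : Fin n → ℂ),
              (∀ i, IsAlgebraic ℚ (α i)) ∧
            LinearIndependent ℚ α ∧ Disjoint (Submodule.span ℚ (range α)) V ∧
            ¬ AI α (c + ((Real.log (b : ℝ) : ℝ) : ℂ))})).filter (fun b => b ≠ 0),
              (b : ℝ)⁻¹ := by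
          rw [Finset.sum_filter, Finset.sum_filter]
          apply Finset.sum_congr rfl
          intro b _
          rw [Set.indicator_apply]
          by_cases hb0 : b = 0
          · simp [hb0]
          · simp [hb0]
        rw [h1]
        apply hC
        intro b hb
        rw [Finset.mem_filter, Finset.mem_filter] at hb
        obtain ⟨⟨_, n, α, hα, hlin, hdis, hAI⟩, hb0⟩ := hb
        exact ⟨⟨_, good_span hα, hdis.eq_bot, inK_of_dep hα hlin hAI⟩, hb0⟩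
    · intro _
      obtain ⟨δ, hδ, h⟩ := pos_prop hzs hsp hexv hfra hV
      refine ⟨δ, hδ, fun N => (h N).trans ?_⟩
      apply Finset.sum_le_sum
      intro b _
      apply Set.indicator_le_indicator_of_subset
      · intro b hb n α hα hlin hVα hAI
        exact (indep_iff hα hlin).mp hAI (InK.mono (mem_KK.mp hb) hVα)
      · intro b; positivity
  · push Not at hno
    refine ⟨⊥, Good.bot.1, Good.bot.2, ?_, ?_, fun h => absurd rfl h, fun h => absurd rfl h,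
      fun h => absurd rfl h⟩
    · intro v hv
      rw [Submodule.mem_bot] at hv ⊢
      rw [hv, map_zero]
    · intro _ n c
      apply (LN_bad hlo hzs hcs hsp hmt hno n c).mono
      rintro b ⟨α, hα, hlin, hAI⟩ _
      refine ⟨_, good_span hα, bot_le, ?_, inK_of_dep hα hlin hAI⟩
      have h1 : finrank ℚ (Submodule.span ℚ (range α)) = Fintype.card (Fin n) :=
        finrank_span_eq_card hlin
      rw [h1, Fintype.card_fin]
      omega

end Pool.Agent.Lib.MP_c82530_nt.AD
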