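import Pool.Agent.Lib.MP_c82530_nt.AD.Stm

set_option autoImplicit false

namespace Pool.Agent.Lib.MP_c82530_nt.AD

open Set Pool.Agent.Lib.MP_c82530_nt Pool.Agent.Lib.MP_c82530_nt.AA Module

private lemma cdt_KK_mono {A B : Submodule ℚ ℂ} (h : A ≤ B) : KK A ≤ KK B := by
  intro z hz
  rw [mem_KK] at hz ⊢
  exact hz.mono h

private lemma cdt_SK_cons (M : Submodule ℚ ℂ) (s : Multiset (Submodule ℚ ℂ)) :
    SK (M ::ₘ s) = KK M ⊔ SK s := by
  unfold SK
  rw [Multiset.map_cons, Multiset.sup_cons]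

private lemma cdt_SK_map_le (M : Submodule ℚ ℂ) (s : Multiset (Submodule ℚ ℂ)) :
    SK (s.map (fun B => M ⊓ B)) ≤ SK s := by
  induction s using Multiset.induction with
  | empty => simp [SK]
  | cons a s ih =>
    rw [Multiset.map_cons, cdt_SK_cons, cdt_SK_cons]
    exact sup_le_sup (cdt_KK_mono inf_le_right) ih

theorem p_cdt (h : S_star) : S_cdt := by
  intro R hR z hz
  let r : Submodule ℚ ℂ → Submodule ℚ ℂ → Prop := fun A B => finrank ℚ A < finrank ℚ B
  have hwf : WellFounded r := InvImage.wf (fun A : Submodule ℚ ℂ => finrank ℚ A) wellFounded_lt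
  have hwf2 := hwf.cutExpand
  let X : Set (Multiset (Submodule ℚ ℂ)) := {s | (∀ M ∈ s, M ≤ R) ∧ z ∈ SK s}
  have hX : X.Nonempty := by
    refine ⟨{R}, ?_, ?_⟩
    · intro M hM
      rw [Multiset.mem_singleton] at hM
      rw [hM]
    · unfold SK
      rw [Multiset.map_singleton, Multiset.sup_singleton]
      exact hz
  obtain ⟨s, hsX, hmin⟩ := hwf2.has_min X hX
  obtain ⟨hsR, hzs⟩ := hsX
  refine ⟨s, hsR, hzs, ?_⟩
  intro H hH H' hH' hzH M hM
  by_contra hcon
  push Not at hcon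
  obtain ⟨hMH, hMH'⟩ := hcon
  obtain ⟨s', rfl⟩ := Multiset.exists_cons_of_mem hM
  have hMR : M ≤ R := hsR M hM
  have hfdR : FiniteDimensional ℚ R := hR.1
  have hfdM : FiniteDimensional ℚ M := Submodule.finiteDimensional_of_le hMR
  have hs'R : ∀ B ∈ s', B ≤ R := fun B hB => hsR B (Multiset.mem_cons_of_mem hB)
  rw [cdt_SK_cons] at hzs
  obtain ⟨a, ha, c, hc, hac⟩ := Submodule.mem_sup.mp hzs
  have hac' : a = z - c := by rw [← hac]; ring
  have ha2 : a ∈ SK (H ::ₘ H' ::ₘ s') := by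
    rw [cdt_SK_cons, cdt_SK_cons, ← sup_assoc, hac']
    exact Submodule.sub_mem _ (Submodule.mem_sup_left hzH) (Submodule.mem_sup_right hc)
  have ha3 := h R hR M hMR (H ::ₘ H' ::ₘ s') (by
    intro B hB
    rw [Multiset.mem_cons, Multiset.mem_cons] at hB
    rcases hB with rfl | rfl | hB
    · exact hH
    · exact hH'
    · exact hs'R B hB) a ha ha2
  rw [Multiset.map_cons, Multiset.map_cons, cdt_SK_cons, cdt_SK_cons] at ha3
  have hz2 : z ∈ SK ((M ⊓ H) ::ₘ (M ⊓ H') ::ₘ s') := by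
    rw [cdt_SK_cons, cdt_SK_cons, ← hac]
    refine Submodule.add_mem _ ?_ (Submodule.mem_sup_right (Submodule.mem_sup_right hc))
    exact (sup_le_sup_left (sup_le_sup_left (cdt_SK_map_le M s') _) _) ha3
  refine hmin ((M ⊓ H) ::ₘ (M ⊓ H') ::ₘ s') ⟨?_, hz2⟩ ?_
  · intro B hB
    rw [Multiset.mem_cons, Multiset.mem_cons] at hB
    rcases hB with rfl | rfl | hB
    · exact inf_le_left.trans hMR
    · exact inf_le_left.trans hMR
    · exact hs'R B hB
  · refine ⟨(M ⊓ H) ::ₘ (M ⊓ H') ::ₘ 0, M, ?_, ?_⟩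
    · intro B hB
      rw [Multiset.mem_cons, Multiset.mem_cons] at hB
      rcases hB with rfl | rfl | hB
      · exact Submodule.finrank_lt_finrank_of_lt (inf_lt_left.mpr hMH)
      · exact Submodule.finrank_lt_finrank_of_lt (inf_lt_left.mpr hMH')
      · exact absurd hB (Multiset.notMem_zero B)
    · rw [← Multiset.singleton_add, ← Multiset.singleton_add, ← Multiset.singleton_add,
        ← Multiset.singleton_add, ← Multiset.singleton_add, add_zero]
      abel

end Pool.Agent.Lib.MP_c82530_nt.AD
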