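import Pool.Agent.Lib.MP_c82530_nt.AD.Stm
import Pool.Agent.Lib.MP_c82530_nt.AA.LoSub

set_option autoImplicit false

namespace Pool.Agent.Lib.MP_c82530_nt.AD

open Set Pool.Agent.Lib.MP_c82530_nt Pool.Agent.Lib.MP_c82530_nt.AA Module

theorem cmp_compactness {𝒞 : Submodule ℚ ℂ → Prop}
    (hcl : ∀ W1 W2, 𝒞 W1 → 𝒞 W2 → 𝒞 (W1 ⊓ W2)) (hno : ∀ W, 𝒞 W → ¬ CoSmall W) :
    ∀ (d : ℕ) (C : ℝ), ∃ x : ℕ,
      ∀ W, Good W → 𝒞 W → finrank ℚ W ≤ d → C ≤ EW W (Nat.primesBelow x) := by
  intro d
  induction d with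
  | zero =>
    intro C
    by_cases hb : 𝒞 ⊥
    · obtain ⟨x, hx⟩ := exists_large Good.bot (hno ⊥ hb) C
      refine ⟨x, fun W hW _ hd => ?_⟩
      have := hW.1
      have hW0 : W = ⊥ := by
        rw [← Submodule.finrank_eq_zero (R := ℚ)]
        omega
      rw [hW0]
      exact hx x le_rfl
    · refine ⟨0, fun W hW hc hd => ?_⟩
      exfalso
      have := hW.1
      have hW0 : W = ⊥ := by
        rw [← Submodule.finrank_eq_zero (R := ℚ)]
        omega
      rw [hW0] at hc
      exact hb hc
  | succ d ih =>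
    intro C
    by_contra hcon
    push Not at hcon
    obtain ⟨x0, hx0⟩ := ih (2 * C)
    choose Wx hg hc hr hlt using hcon
    have key : ∀ x, x0 ≤ x → Wx x = Wx x0 := by
      intro x hx
      have f1 := (hg x).1
      have f0 := (hg x0).1
      have h1 : EW (Wx x ⊓ Wx x0) (Nat.primesBelow x0) < 2 * C := by
        have h2 := EW_inf (hg x) (hg x0) (Nat.primesBelow x0)
        have h3 : EW (Wx x) (Nat.primesBelow x0) ≤ EW (Wx x) (Nat.primesBelow x) :=
          EW_mono (primesBelow_mono hx)
        have h4 := hlt x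
        have h5 := hlt x0
        linarith
      have h2 : d < finrank ℚ (Wx x ⊓ Wx x0 : Submodule ℚ ℂ) := by
        by_contra h3
        push Not at h3
        exact absurd (hx0 _ (hg x).inf (hcl _ _ (hc x) (hc x0)) h3) (not_le.mpr h1)
      have e1 : Wx x ⊓ Wx x0 = Wx x :=
        Submodule.eq_of_le_of_finrank_le inf_le_left (by have := hr x; omega)
      have e2 : Wx x ⊓ Wx x0 = Wx x0 :=
        Submodule.eq_of_le_of_finrank_le inf_le_right (by have := hr x0; omega)
      exact e1.symm.trans e2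
    obtain ⟨x, hx⟩ := exists_large (hg x0) (hno _ (hc x0)) C
    have h1 := hx (max x x0) (le_max_left _ _)
    have h2 := hlt (max x x0)
    rw [key _ (le_max_right _ _)] at h2
    linarith

theorem p_cmp : S_cmp := by
  classical
  intro 𝒞 hcl hno M C x₀
  obtain ⟨x, hx⟩ := cmp_compactness hcl hno M (C + ∑ p ∈ Finset.range (x₀ + 1), (p : ℝ)⁻¹)
  refine ⟨(Nat.primesBelow x).filter (fun p => x₀ < p), ?_, fun W hW hc hM => ?_⟩
  · intro p hp
    rw [Finset.mem_filter] at hp
    exact ⟨prime_primesBelow p hp.1, hp.2⟩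
  · have h1 := hx W hW hc hM
    have h2 : EW W (Nat.primesBelow x) ≤
        EW W ((Nat.primesBelow x).filter (fun p => x₀ < p)) +
          ∑ p ∈ Finset.range (x₀ + 1), (p : ℝ)⁻¹ := by
      unfold EW EK
      rw [← Finset.sum_filter_add_sum_filter_not (Out (KK W) (Nat.primesBelow x))
        (fun p => x₀ < p)]
      apply add_le_add
      · apply le_of_eq
        apply Finset.sum_congr _ (fun _ _ => rfl)
        ext p
        simp only [Finset.mem_filter, mem_Out]
        tauto
      · apply Finset.sum_le_sum_of_subset_of_nonneg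
        · intro p hp
          rw [Finset.mem_filter] at hp
          rw [Finset.mem_range]
          have := hp.2
          omega
        · intro p _ _; positivity
    linarith

end Pool.Agent.Lib.MP_c82530_nt.AD
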