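import Mathlib
import Pool.Agent.Lib.MP_c82530_nt.AD.Stm

set_option autoImplicit false

namespace Pool.Agent.Lib.MP_c82530_nt.AD

open Set Pool.Agent.Lib.MP_c82530_nt Pool.Agent.Lib.MP_c82530_nt.AA Module Filter Topology

private lemma lim_harm (N : ℕ) : ∑ b ∈ Finset.Icc 1 N, (b : ℝ)⁻¹ ≤ 1 + Real.log N := by
  have h := harmonic_le_one_add_log N
  rw [harmonic_eq_sum_Icc] at h
  push_cast at h
  exact h

theorem p_lim : S_lim := by
  intro D hD
  rw [LN, Metric.tendsto_atTop]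
  intro ε hε
  obtain ⟨D1, D2, hsub, hD1, hD2⟩ := hD (ε / 4) (by positivity)
  rw [LN, Metric.tendsto_atTop] at hD1
  obtain ⟨N₁, hN₁⟩ := hD1 (ε / 4) (by positivity)
  refine ⟨max 3 N₁, fun N hN => ?_⟩
  have hN3 : 3 ≤ N := le_trans (le_max_left _ _) hN
  have hNN : N₁ ≤ N := le_trans (le_max_right _ _) hN
  have hlog1 : 1 ≤ Real.log N := by
    rw [Real.le_log_iff_exp_le (by positivity)]
    have h1 := Real.exp_one_lt_d9
    have h2 : (3 : ℝ) ≤ N := by exact_mod_cast hN3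
    linarith
  have hlog : 0 < Real.log N := by linarith
  have h1 := hN₁ N hNN
  rw [Real.dist_eq, sub_zero, abs_of_nonneg (div_nonneg (sum_indicator_nonneg D1 N) hlog.le),
    div_lt_iff₀ hlog] at h1
  rw [Real.dist_eq, sub_zero, abs_of_nonneg (div_nonneg (sum_indicator_nonneg D N) hlog.le),
    div_lt_iff₀ hlog]
  have h2 := hD2 N
  have h3 := lim_harm N
  have h4 : ∑ b ∈ Finset.Icc 1 N, D.indicator (fun b : ℕ => (b : ℝ)⁻¹) b ≤
      ∑ b ∈ Finset.Icc 1 N, D1.indicator (fun b : ℕ => (b : ℝ)⁻¹) b +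
      ∑ b ∈ Finset.Icc 1 N, D2.indicator (fun b : ℕ => (b : ℝ)⁻¹) b := by
    rw [← Finset.sum_add_distrib]
    apply Finset.sum_le_sum
    intro b hb
    have hb0 : b ≠ 0 := by
      rw [Finset.mem_Icc] at hb; omega
    have e1 : 0 ≤ D1.indicator (fun b : ℕ => (b : ℝ)⁻¹) b :=
      Set.indicator_nonneg (fun b _ => by positivity) b
    have e2 : 0 ≤ D2.indicator (fun b : ℕ => (b : ℝ)⁻¹) b :=
      Set.indicator_nonneg (fun b _ => by positivity) b
    by_cases h : b ∈ D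
    · rw [Set.indicator_of_mem h]
      rcases hsub b h hb0 with h5 | h5
      · rw [Set.indicator_of_mem h5]
        linarith
      · rw [Set.indicator_of_mem h5]
        linarith
    · rw [Set.indicator_of_notMem h]
      linarith
  have h5 : ε / 4 * ∑ b ∈ Finset.Icc 1 N, (b : ℝ)⁻¹ ≤ ε / 4 * (1 + Real.log N) :=
    mul_le_mul_of_nonneg_left h3 (by positivity)
  nlinarith

end Pool.Agent.Lib.MP_c82530_nt.AD
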