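import Pool.Agent.Lib.MP_c82530_nt.AD.Stm

set_option autoImplicit false

namespace Pool.Agent.Lib.MP_c82530_nt.AD

open Set Pool.Agent.Lib.MP_c82530_nt Pool.Agent.Lib.MP_c82530_nt.AA Module

private lemma proj_mem_range {k K : Type} [Field k] [Field K] [IsAlgClosed k] (j : k →+* K) {z : K}
    {q : Polynomial k} (hq : q ≠ 0) (h : (q.map j).eval z = 0) : z ∈ j.range := by
  let := j.toAlgebra
  have hz : IsIntegral k z := by
    rw [← isAlgebraic_iff_isIntegral]
    refine ⟨q, hq, ?_⟩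
    rw [Polynomial.aeval_def, Polynomial.eval₂_eq_eval_map]
    exact h
  exact minpoly.mem_range_of_degree_eq_one k z
    (IsAlgClosed.degree_eq_one_of_irreducible k (minpoly.irreducible hz))

private lemma proj_tw {k K : Type} [Field k] [Field K] (i : k →+* K) (E : ℚ → K) (h0 : E 0 = 1)
    (hadd : ∀ p q, E (p + q) = E p * E q) :
    ∃ j : HahnSeries ℚ k →+* HahnSeries ℚ K, ∀ s q, (j s).coeff q = E q * i (s.coeff q) := by
  have hE : ∀ q, E q ≠ 0 := by
    intro q hq
    have h1 := hadd q (-q)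
    rw [add_neg_cancel, h0, hq, zero_mul] at h1
    exact one_ne_zero h1
  have hsupp : ∀ s : HahnSeries ℚ k, Function.support (fun q => E q * i (s.coeff q)) =
      s.support := by
    intro s
    ext q
    simp only [Function.mem_support, HahnSeries.mem_support, ne_eq, mul_eq_zero, hE q, false_or,
      map_eq_zero]
  let f : HahnSeries ℚ k → HahnSeries ℚ K := fun s =>
    { coeff := fun q => E q * i (s.coeff q)
      isPWO_support' := by rw [hsupp s]; exact s.isPWO_support }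
  have hf : ∀ s q, (f s).coeff q = E q * i (s.coeff q) := fun s q => rfl
  have hfs : ∀ s, (f s).support = s.support := fun s => hsupp s
  refine ⟨{ toFun := f, map_one' := ?_, map_mul' := ?_, map_zero' := ?_, map_add' := ?_ }, hf⟩
  · ext q
    rw [hf, HahnSeries.coeff_one, HahnSeries.coeff_one]
    by_cases hq : q = 0
    · rw [if_pos hq, if_pos hq, hq, h0, map_one, mul_one]
    · rw [if_neg hq, if_neg hq, map_zero, mul_zero]
  · intro s t
    ext q
    rw [hf, HahnSeries.coeff_mul, HahnSeries.coeff_mul, map_sum, Finset.mul_sum]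
    have hset : Finset.antidiagonal (f s).isPWO_support (f t).isPWO_support q =
        Finset.antidiagonal s.isPWO_support t.isPWO_support q := by
      ext x
      rw [Finset.mem_antidiagonal, Finset.mem_antidiagonal, hfs, hfs]
    rw [hset]
    apply Finset.sum_congr rfl
    intro x hx
    rw [hf, hf, map_mul]
    have h1 := (Finset.mem_antidiagonal.mp hx).2.2
    rw [← h1, hadd]
    ring
  · ext q
    rw [hf, HahnSeries.coeff_zero, HahnSeries.coeff_zero, map_zero, mul_zero]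
  · intro s t
    ext q
    rw [hf, HahnSeries.coeff_add, HahnSeries.coeff_add, hf, hf, map_add, mul_add]

private lemma proj_alg (k : Type) [Field k] (a : k) :
    algebraMap k (HahnSeries ℚ k) a = HahnSeries.C a := by
  rw [HahnSeries.algebraMap_apply', PowerSeries.algebraMap_apply, Algebra.algebraMap_self,
    RingHom.id_apply, HahnSeries.ofPowerSeries_C]

private lemma proj_tr (k : Type) [Field k] :
    Transcendental k (HahnSeries.single (1 : ℚ) (1 : k)) := by
  rw [transcendental_iff]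
  intro p hp
  have h1 : (Polynomial.aeval (HahnSeries.single (1 : ℚ) (1 : k)) : Polynomial k →ₐ[k] _).toRingHom =
      (HahnSeries.ofPowerSeries ℚ k).comp (Polynomial.coeToPowerSeries.ringHom) := by
    apply Polynomial.ringHom_ext
    · intro a
      simp only [AlgHom.toRingHom_eq_coe, RingHom.coe_coe, RingHom.comp_apply,
        Polynomial.coeToPowerSeries.ringHom_apply, Polynomial.aeval_C, Polynomial.coe_C,
        HahnSeries.ofPowerSeries_C, proj_alg]
    · simp
  have h2 : (HahnSeries.ofPowerSeries ℚ k) (p : PowerSeries k) = 0 := by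
    have := congrArg (fun g => g p) h1
    simp only [AlgHom.toRingHom_eq_coe, RingHom.coe_coe, RingHom.comp_apply,
      Polynomial.coeToPowerSeries.ringHom_apply] at this
    rw [← this]
    exact hp
  have h3 : (p : PowerSeries k) = 0 := by
    apply HahnSeries.ofPowerSeries_injective (Γ := ℚ)
    rw [h2, map_zero]
  exact_mod_cast h3

private lemma proj_iota (F : IntermediateField ℚ ℂ) (hH : IsAlgClosed (HahnSeries ℚ F)) {τ : ℂ}
    (hτ : Transcendental F τ) : ∃ (L : IntermediateField ℚ ℂ) (hFL : ∀ z ∈ F, z ∈ L) (hτL : τ ∈ L)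
      (ι : L →+* HahnSeries ℚ F), (∀ z, IsAlgebraic L z → z ∈ L) ∧
      (∀ (f : ℂ) (hf : f ∈ F), ι ⟨f, hFL f hf⟩ = HahnSeries.C (⟨f, hf⟩ : F)) ∧
      ι ⟨τ, hτL⟩ = HahnSeries.single (1 : ℚ) (1 : F) := by
  have h1 : AlgebraicIndependent F (fun _ : Unit => τ) := by
    rw [algebraicIndependent_unique_type_iff]; exact hτ
  have h2 : AlgebraicIndependent F (fun _ : Unit => HahnSeries.single (1 : ℚ) (1 : F)) := by
    rw [algebraicIndependent_unique_type_iff]; exact proj_tr F
  let f : FractionRing (MvPolynomial Unit F) →ₐ[F] HahnSeries ℚ F :=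
    IsFractionRing.liftAlgHom (K := FractionRing (MvPolynomial Unit F))
      (algebraicIndependent_iff_injective_aeval.2 h2)
  have hf : f (algebraMap (MvPolynomial Unit F) (FractionRing (MvPolynomial Unit F))
      (MvPolynomial.X ())) = HahnSeries.single (1 : ℚ) (1 : F) := by
    have : f (algebraMap (MvPolynomial Unit F) (FractionRing (MvPolynomial Unit F))
      (MvPolynomial.X ())) = MvPolynomial.aeval (fun _ : Unit => HahnSeries.single (1 : ℚ) (1 : F))
        (MvPolynomial.X ()) :=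
      IsFractionRing.lift_algebraMap (algebraicIndependent_iff_injective_aeval.2 h2) _
    rw [this, MvPolynomial.aeval_X]
  let E := IntermediateField.adjoin F (range fun _ : Unit => τ)
  let φ : E →ₐ[F] HahnSeries ℚ F := f.comp h1.aevalEquivField.symm.toAlgHom
  obtain ⟨σ, hσ⟩ := IsAlgClosed.surjective_domRestrict_of_isAlgebraic (K := F)
    (M := HahnSeries ℚ F) (L := E) (E := algebraicClosure E ℂ) φ
  have hmem : τ ∈ E := IntermediateField.subset_adjoin _ _ ⟨(), rfl⟩
  have hEL : ∀ z ∈ E, z ∈ algebraicClosure E ℂ := fun z hz =>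
    (algebraicClosure E ℂ).algebraMap_mem ⟨z, hz⟩
  have hFE : ∀ z ∈ F, z ∈ E := fun z hz => E.algebraMap_mem ⟨z, hz⟩
  refine ⟨(algebraicClosure E ℂ).restrictScalars ℚ, fun z hz => hEL z (hFE z hz), hEL τ hmem,
    σ.toRingHom, ?_, ?_, ?_⟩
  · intro z hz
    have h3 : IsAlgebraic (algebraicClosure E ℂ) z := hz
    have h4 : IsAlgebraic E z := h3.restrictScalars E
    exact mem_algebraicClosure_iff.mpr h4
  · intro f hf
    rw [← proj_alg]
    exact σ.commutes (⟨f, hf⟩ : F)
  · have e1 : σ ⟨τ, hEL τ hmem⟩ = φ ⟨τ, hmem⟩ := by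
      rw [← hσ]; rfl
    have e2 : h1.aevalEquivField (algebraMap (MvPolynomial Unit F)
        (FractionRing (MvPolynomial Unit F)) (MvPolynomial.X ())) =
        (⟨τ, hmem⟩ : IntermediateField.adjoin F (range fun _ : Unit => τ)) := by
      apply Subtype.ext
      rw [AlgebraicIndependent.aevalEquivField_algebraMap_apply_coe, MvPolynomial.aeval_X]
    have e3 : h1.aevalEquivField.symm (⟨τ, hmem⟩ : IntermediateField.adjoin F
        (range fun _ : Unit => τ)) = algebraMap (MvPolynomial Unit F)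
        (FractionRing (MvPolynomial Unit F)) (MvPolynomial.X ()) := by
      rw [← e2, AlgEquiv.symm_apply_apply]
    change σ ⟨τ, hEL τ hmem⟩ = _
    rw [e1]
    change f (h1.aevalEquivField.symm _) = _
    rw [e3, hf]

private lemma proj_isAlgClosed (F : IntermediateField ℚ ℂ) (hF : ∀ z, IsAlgebraic F z → z ∈ F) :
    IsAlgClosed F := by
  apply IsAlgClosed.of_exists_root
  intro p hmon hirr
  obtain ⟨x, hx⟩ := IsAlgClosed.exists_aeval_eq_zero ℂ p
    (Polynomial.degree_pos_of_irreducible hirr).ne'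
  have hxF : x ∈ F := hF x ⟨p, hmon.ne_zero, hx⟩
  refine ⟨⟨x, hxF⟩, ?_⟩
  have h1 : (algebraMap F ℂ) (p.eval ⟨x, hxF⟩) = 0 := by
    rw [← hx, Polynomial.aeval_def]
    exact (Polynomial.eval₂_at_apply (algebraMap F ℂ) (⟨x, hxF⟩ : F)).symm
  exact (map_eq_zero (algebraMap F ℂ)).mp h1

/-- the elements of `L` mapped into the range of `j` form a relatively algebraically closed field -/
private lemma proj_field (L : IntermediateField ℚ ℂ) (hL : ∀ z, IsAlgebraic L z → z ∈ L)
    {k K : Type} [Field k] [Field K] [IsAlgClosed k] [Algebra ℚ K] (ι : L →+* K) (j : k →+* K)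
    (hQ : ∀ q : ℚ, algebraMap ℚ K q ∈ j.range) :
    ∃ D : IntermediateField ℚ ℂ, (∀ z, IsAlgebraic D z → z ∈ D) ∧
      ∀ z, z ∈ D ↔ ∃ h : z ∈ L, ι ⟨z, h⟩ ∈ j.range := by
  let D : IntermediateField ℚ ℂ :=
    { carrier := {z | ∃ h : z ∈ L, ι ⟨z, h⟩ ∈ j.range}
      mul_mem' := by
        rintro a b ⟨ha, ha'⟩ ⟨hb, hb'⟩
        refine ⟨mul_mem ha hb, ?_⟩
        have : ι ⟨a * b, mul_mem ha hb⟩ = ι ⟨a, ha⟩ * ι ⟨b, hb⟩ := by
          rw [← map_mul]; rfl
        rw [this]
        exact mul_mem ha' hb'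
      one_mem' := ⟨one_mem L, by
        have : ι ⟨1, one_mem L⟩ = 1 := map_one ι
        rw [this]; exact one_mem _⟩
      add_mem' := by
        rintro a b ⟨ha, ha'⟩ ⟨hb, hb'⟩
        refine ⟨add_mem ha hb, ?_⟩
        have : ι ⟨a + b, add_mem ha hb⟩ = ι ⟨a, ha⟩ + ι ⟨b, hb⟩ := by
          rw [← map_add]; rfl
        rw [this]
        exact add_mem ha' hb'
      zero_mem' := ⟨zero_mem L, by
        have : ι ⟨0, zero_mem L⟩ = 0 := map_zero ι
        rw [this]; exact zero_mem _⟩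
      algebraMap_mem' := by
        intro q
        refine ⟨L.algebraMap_mem q, ?_⟩
        have : ι ⟨algebraMap ℚ ℂ q, L.algebraMap_mem q⟩ = algebraMap ℚ K q := by
          have h1 : (⟨algebraMap ℚ ℂ q, L.algebraMap_mem q⟩ : L) = algebraMap ℚ L q := rfl
          rw [h1]
          exact congrFun (congrArg DFunLike.coe (RingHom.ext_rat (ι.comp (algebraMap ℚ L))
            (algebraMap ℚ K))) q
        rw [this]
        exact hQ q
      inv_mem' := by
        rintro a ⟨ha, x, hx⟩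
        refine ⟨inv_mem ha, x⁻¹, ?_⟩
        have : ι ⟨a⁻¹, inv_mem ha⟩ = (ι ⟨a, ha⟩)⁻¹ := by
          rw [← map_inv₀]; rfl
        rw [this, ← hx, map_inv₀] }
  have hD : ∀ z, z ∈ D ↔ ∃ h : z ∈ L, ι ⟨z, h⟩ ∈ j.range := fun z => Iff.rfl
  refine ⟨D, ?_, hD⟩
  intro z hz
  obtain ⟨p, hp0, hpz⟩ := hz
  have hDL : ∀ d : D, (d : ℂ) ∈ L := fun d => ((hD d).mp d.2).1
  let inc : D →+* L :=
    { toFun := fun d => ⟨d, hDL d⟩
      map_one' := rfl
      map_mul' := fun _ _ => rfl
      map_zero' := rfl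
      map_add' := fun _ _ => rfl }
  have hzL : z ∈ L := by
    apply hL
    refine ⟨p.map inc, ?_, ?_⟩
    · exact (Polynomial.map_ne_zero_iff inc.injective).mpr hp0
    · rw [Polynomial.aeval_def, Polynomial.eval₂_map]
      exact hpz
  refine (hD z).mpr ⟨hzL, ?_⟩
  -- the polynomial over `K`
  have hlift : p.map (ι.comp inc) ∈ Polynomial.lifts j := by
    rw [Polynomial.lifts_iff_coeff_lifts]
    intro n
    rw [Polynomial.coeff_map]
    obtain ⟨h1, h2⟩ := (hD (p.coeff n)).mp (p.coeff n).2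
    exact h2
  obtain ⟨q, hq⟩ := (Polynomial.mem_lifts _).mp hlift
  apply proj_mem_range j (q := q)
  · rintro rfl
    rw [Polynomial.map_zero] at hq
    exact (Polynomial.map_ne_zero_iff (ι.comp inc).injective).mpr hp0 hq.symm
  · rw [hq, Polynomial.eval_map, ← Polynomial.hom_eval₂]
    have h3 : Polynomial.eval₂ inc (⟨z, hzL⟩ : L) p = 0 := by
      apply Subtype.ext
      have h4 : ((Polynomial.eval₂ inc (⟨z, hzL⟩ : L) p : L) : ℂ) =
          Polynomial.eval₂ ((algebraMap L ℂ).comp inc) z p := by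
        exact Polynomial.hom_eval₂ p inc (algebraMap L ℂ) (⟨z, hzL⟩ : L)
      rw [h4]
      exact hpz
    rw [h3, map_zero]

/-- piece PROJ: projections -/
theorem p_proj (h : S_hahn) : S_proj := by
  intro R A b hR hAR hbR hbA hsup
  classical
  have hA : Good A := hR.of_le hAR
  obtain ⟨F', σ, hF'c, hF'e, hτF', -⟩ := exists_scaling b A hA.2 (hR.2 b hbR) hbA
  have hτ : Transcendental (clF (expSet A)) (Complex.exp b) := by
    intro hh
    have h1 := clF_closed hh
    rw [mem_clF] at h1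
    have h2 : IsAlgebraic F' (Complex.exp b) := isAlgebraic_of_mem_cl F' (by
      rintro _ ⟨x, hx, rfl⟩
      exact hF'e x hx) h1
    exact hτF' (hF'c _ h2)
  obtain ⟨F, hFdef⟩ : ∃ F, F = clF (expSet A) := ⟨_, rfl⟩
  have hFc : ∀ z, IsAlgebraic F z → z ∈ F := by
    rw [hFdef]; exact fun z hz => clF_closed hz
  have hFK : ∀ z, z ∈ F ↔ z ∈ KK A := by
    intro z; rw [hFdef]; exact Iff.rfl
  have hFe : ∀ x ∈ A, Complex.exp x ∈ F := by
    intro x hx
    rw [hFdef, mem_clF]
    exact AM.mem_closure_of_mem' ⟨x, hx, rfl⟩ (mem_univ _)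
  rw [← hFdef] at hτ
  have hFac : IsAlgClosed F := proj_isAlgClosed F hFc
  obtain ⟨L, hFL, hτL, ι, hLc, hιF, hιτ⟩ := proj_iota F (h F) hτ
  -- elements of `R`
  have hdec : ∀ x ∈ R, ∃ a ∈ A, ∃ q : ℚ, x = a + q • b := by
    intro x hx
    rw [← hsup] at hx
    obtain ⟨a, ha, y, hy, rfl⟩ := Submodule.mem_sup.mp hx
    obtain ⟨q, rfl⟩ := Submodule.mem_span_singleton.mp hy
    exact ⟨a, ha, q, rfl⟩
  have hRL : ∀ y ∈ KK R, y ∈ L := by
    intro y hy
    rw [mem_KK] at hy
    apply hLc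
    apply isAlgebraic_of_mem_cl L _ hy
    rintro _ ⟨x, hx, rfl⟩
    obtain ⟨a, ha, q, rfl⟩ := hdec x hx
    rw [Complex.exp_add]
    exact mul_mem (hFL _ (hFe a ha)) (exp_smul_mem L hLc q hτL)
  let Pr : KK R →+ ℂ := AddMonoidHom.mk' (fun y => (((ι ⟨y, hRL y y.2⟩).coeff 0 : F) : ℂ)) (by
    intro u v
    have h1 : ι ⟨((u + v : KK R) : ℂ), hRL _ (u + v).2⟩ =
        ι ⟨u, hRL u u.2⟩ + ι ⟨v, hRL v v.2⟩ := by
      rw [← map_add]; rfl
    rw [h1, HahnSeries.coeff_add]
    rfl)
  have hPr : ∀ y : KK R, Pr y = (((ι ⟨y, hRL y y.2⟩).coeff 0 : F) : ℂ) := fun y => rfl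
  have hP1 : ∀ y : KK R, (y : ℂ) ∈ KK A → Pr y = (y : ℂ) := by
    intro y hy
    rw [hPr, hιF y ((hFK y).mpr hy), HahnSeries.C_apply, HahnSeries.coeff_single_same]
  refine ⟨Pr, hP1, ?_⟩
  intro B hBR y hy
  by_cases hBA : B ≤ A
  · rw [inf_eq_right.mpr hBA, hP1 y (by rw [mem_KK] at hy ⊢; exact hy.mono hBA)]
    exact hy
  -- a new generator
  obtain ⟨r, hrB, hrA⟩ := SetLike.not_le_iff_exists.mp hBA
  obtain ⟨a₁, ha₁, q₁, hr⟩ := hdec r (hBR hrB)
  have hq₁ : q₁ ≠ 0 := by
    rintro rfl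
    apply hrA
    rw [hr, zero_smul, add_zero]
    exact ha₁
  set a' : ℂ := q₁⁻¹ • a₁ with ha'
  have ha'A : a' ∈ A := A.smul_mem _ ha₁
  have hnew : a' + b ∈ B := by
    have h1 := B.smul_mem q₁⁻¹ hrB
    rw [hr, smul_add, smul_smul, inv_mul_cancel₀ hq₁, one_smul] at h1
    exact h1
  have hdecB : ∀ x ∈ B, ∃ a ∈ A ⊓ B, ∃ q : ℚ, x = a + q • (a' + b) := by
    intro x hx
    obtain ⟨a, ha, q, hxa⟩ := hdec x (hBR hx)
    refine ⟨a - q • a', ⟨A.sub_mem ha (A.smul_mem q ha'A), ?_⟩, q, ?_⟩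
    · have h2 : a - q • a' = x - q • (a' + b) := by
        rw [hxa, smul_add]; ring
      rw [h2]
      exact B.sub_mem hx (B.smul_mem q hnew)
    · rw [hxa, smul_add]; ring
  -- the small field
  obtain ⟨F₀, hF₀def⟩ : ∃ F₀, F₀ = clF (expSet (A ⊓ B)) := ⟨_, rfl⟩
  have hF₀c : ∀ z, IsAlgebraic F₀ z → z ∈ F₀ := by
    rw [hF₀def]; exact fun z hz => clF_closed hz
  have hF₀K : ∀ z, z ∈ F₀ ↔ z ∈ KK (A ⊓ B) := by
    intro z; rw [hF₀def]; exact Iff.rfl
  have hF₀F : ∀ z ∈ F₀, z ∈ F := by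
    intro z hz
    rw [hFK, mem_KK]
    rw [hF₀K, mem_KK] at hz
    exact hz.mono inf_le_left
  have hF₀ac : IsAlgClosed F₀ := proj_isAlgClosed F₀ hF₀c
  have : IsAlgClosed (HahnSeries ℚ F₀) := h F₀
  let inc : F₀ →+* F :=
    { toFun := fun d => ⟨d, hF₀F d d.2⟩
      map_one' := rfl
      map_mul' := fun _ _ => rfl
      map_zero' := rfl
      map_add' := fun _ _ => rfl }
  let E : ℚ → F := fun q => ⟨Complex.exp (q • a'), hFe _ (A.smul_mem q ha'A)⟩
  obtain ⟨j, hj⟩ := proj_tw inc E (by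
      apply Subtype.ext
      change Complex.exp ((0 : ℚ) • a') = 1
      rw [zero_smul, Complex.exp_zero]) (by
      intro p q
      apply Subtype.ext
      change Complex.exp ((p + q : ℚ) • a') = Complex.exp (p • a') * Complex.exp (q • a')
      rw [add_smul, Complex.exp_add])
  have hE0 : E 0 = 1 := by
    apply Subtype.ext
    change Complex.exp ((0 : ℚ) • a') = 1
    rw [zero_smul, Complex.exp_zero]
  have hjC : ∀ (f : ℂ) (hf : f ∈ F₀), HahnSeries.C (⟨f, hF₀F f hf⟩ : F) ∈ j.range := by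
    intro f hf
    refine ⟨HahnSeries.C ⟨f, hf⟩, ?_⟩
    ext1
    funext q
    rw [hj, HahnSeries.C_apply, HahnSeries.C_apply]
    by_cases hq : q = 0
    · rw [hq, HahnSeries.coeff_single_same, HahnSeries.coeff_single_same, hE0, one_mul]
      rfl
    · rw [HahnSeries.coeff_single_of_ne hq, HahnSeries.coeff_single_of_ne hq, map_zero, mul_zero]
  obtain ⟨D, hDc, hD⟩ := proj_field L hLc ι j (by
    intro q
    have h1 : algebraMap ℚ (HahnSeries ℚ F) q = HahnSeries.C (algebraMap ℚ F q) := by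
      exact congrFun (congrArg DFunLike.coe (RingHom.ext_rat (algebraMap ℚ (HahnSeries ℚ F))
        (HahnSeries.C.comp (algebraMap ℚ F)))) q
    rw [h1]
    have h2 : (algebraMap ℚ F q : F) = ⟨algebraMap ℚ ℂ q, hF₀F _ (F₀.algebraMap_mem q)⟩ := rfl
    rw [h2]
    exact hjC _ (F₀.algebraMap_mem q))
  have hF₀D : ∀ z ∈ F₀, z ∈ D := by
    intro z hz
    rw [hD]
    refine ⟨hFL z (hF₀F z hz), ?_⟩
    rw [hιF z (hF₀F z hz)]
    exact hjC z hz
  have hnewD : Complex.exp (a' + b) ∈ D := by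
    rw [hD]
    have hL1 : Complex.exp (a' + b) ∈ L := by
      rw [Complex.exp_add]
      exact mul_mem (hFL _ (hFe _ ha'A)) hτL
    refine ⟨hL1, HahnSeries.single (1 : ℚ) (1 : F₀), ?_⟩
    have h1 : ι ⟨Complex.exp (a' + b), hL1⟩ =
        ι ⟨Complex.exp a', hFL _ (hFe _ ha'A)⟩ * ι ⟨Complex.exp b, hτL⟩ := by
      rw [← map_mul]
      apply congrArg
      apply Subtype.ext
      exact Complex.exp_add a' b
    rw [h1, hιF _ (hFe _ ha'A), hιτ, HahnSeries.C_apply, HahnSeries.single_mul_single, zero_add,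
      mul_one]
    ext1
    funext q
    rw [hj]
    by_cases hq : q = 1
    · rw [hq, HahnSeries.coeff_single_same, HahnSeries.coeff_single_same, map_one, mul_one]
      apply Subtype.ext
      change Complex.exp ((1 : ℚ) • a') = Complex.exp a'
      rw [one_smul]
    · rw [HahnSeries.coeff_single_of_ne hq, HahnSeries.coeff_single_of_ne hq, map_zero, mul_zero]
  have hyD : (y : ℂ) ∈ D := by
    rw [mem_KK] at hy
    apply hDc
    apply isAlgebraic_of_mem_cl D _ hy
    rintro _ ⟨x, hx, rfl⟩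
    obtain ⟨a, ha, q, rfl⟩ := hdecB x hx
    rw [Complex.exp_add]
    refine mul_mem (hF₀D _ ?_) (exp_smul_mem D hDc q hnewD)
    rw [hF₀def, mem_clF]
    exact AM.mem_closure_of_mem' ⟨a, ha, rfl⟩ (mem_univ _)
  obtain ⟨hyL, s, hs⟩ := (hD y).mp hyD
  rw [← hF₀K, hPr]
  have h5 : (ι ⟨y, hRL y y.2⟩).coeff 0 = inc (s.coeff 0) := by
    rw [← hs, hj, hE0, one_mul]
  rw [h5]
  exact (s.coeff 0).2

end Pool.Agent.Lib.MP_c82530_nt.AD
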