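import Pool.Agent.Lib.MP_c82530_nt.AD.Stm

set_option autoImplicit false

namespace Pool.Agent.Lib.MP_c82530_nt.AD

open Set Pool.Agent.Lib.MP_c82530_nt Pool.Agent.Lib.MP_c82530_nt.AA Module

private lemma star_KK_mono {A B : Submodule ℚ ℂ} (h : A ≤ B) : KK A ≤ KK B := by
  intro z hz
  rw [mem_KK] at hz ⊢
  exact hz.mono h

private lemma star_SK_cons (B : Submodule ℚ ℂ) (s : Multiset (Submodule ℚ ℂ)) :
    SK (B ::ₘ s) = KK B ⊔ SK s := by
  unfold SK
  rw [Multiset.map_cons, Multiset.sup_cons]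

private lemma star_step {R A : Submodule ℚ ℂ} (Pr : KK R →+ ℂ)
    (hPr : ∀ B ≤ R, ∀ y : KK R, (y : ℂ) ∈ KK B → Pr y ∈ KK (A ⊓ B))
    (s : Multiset (Submodule ℚ ℂ)) :
    (∀ B ∈ s, B ≤ R) → ∀ y : KK R, (y : ℂ) ∈ SK s → Pr y ∈ SK (s.map (fun B => A ⊓ B)) := by
  induction s using Multiset.induction_on with
  | empty =>
    intro _ y hy
    have h1 : (y : ℂ) ∈ (⊥ : Submodule ℚ ℂ) := by
      simpa [SK] using hy
    have h2 : y = 0 := Subtype.ext (by simpa using h1)
    rw [h2, map_zero]
    exact Submodule.zero_mem _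
  | cons B s ih =>
    intro hs y hy
    rw [star_SK_cons] at hy
    obtain ⟨u, hu, v, hv, huv⟩ := Submodule.mem_sup.mp hy
    have huR : u ∈ KK R := star_KK_mono (hs B (Multiset.mem_cons_self B s)) hu
    have hvR : v ∈ KK R := by
      have h3 : v = (y : ℂ) - u := by rw [← huv]; ring
      rw [h3]
      exact (KK R).sub_mem y.2 huR
    have hy2 : y = (⟨u, huR⟩ : KK R) + ⟨v, hvR⟩ := Subtype.ext huv.symm
    rw [hy2, map_add, Multiset.map_cons, star_SK_cons]
    exact Submodule.add_mem_sup (hPr B (hs B (Multiset.mem_cons_self B s)) _ hu)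
      (ih (fun C hC => hs C (Multiset.mem_cons_of_mem hC)) _ hv)

private lemma star_SK_le {R : Submodule ℚ ℂ} (s : Multiset (Submodule ℚ ℂ))
    (hs : ∀ B ∈ s, B ≤ R) : SK s ≤ KK R := by
  unfold SK
  apply Multiset.sup_le.mpr
  intro M hM
  obtain ⟨B, hB, rfl⟩ := Multiset.mem_map.mp hM
  exact star_KK_mono (hs B hB)

/-- piece STAR: distributivity -/
theorem p_star (h : S_proj) : S_star := by
  have key : ∀ (n : ℕ) (R : Submodule ℚ ℂ), Good R → finrank ℚ R = n → ∀ A ≤ R,
      ∀ s : Multiset (Submodule ℚ ℂ), (∀ B ∈ s, B ≤ R) → ∀ z ∈ KK A, z ∈ SK s →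
      z ∈ SK (s.map (fun B => A ⊓ B)) := by
    intro n
    induction n using Nat.strong_induction_on with
    | _ n ih =>
    intro R hR hn A hA s hs z hzA hzs
    have := hR.1
    by_cases hAR : A = R
    · have h1 : s.map (fun B => A ⊓ B) = s := by
        rw [show s = s.map (fun B => B) from (Multiset.map_id' s).symm, Multiset.map_map]
        apply Multiset.map_congr rfl
        intro B hB
        rw [hAR]
        exact inf_eq_right.mpr (hs B hB)
      rw [h1]
      exact hzs
    · have hlt : A < R := lt_of_le_of_ne hA hAR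
      obtain ⟨b, hbR, hbA⟩ := SetLike.exists_of_lt hlt
      -- a hyperplane
      have hdis : Disjoint A (Submodule.span ℚ {b}) := by
        rw [Submodule.disjoint_def]
        intro x hx hx'
        obtain ⟨q, rfl⟩ := Submodule.mem_span_singleton.mp hx'
        by_cases hq : q = 0
        · rw [hq, zero_smul]
        · exfalso
          apply hbA
          have := A.smul_mem q⁻¹ hx
          rwa [smul_smul, inv_mul_cancel₀ hq, one_smul] at this
      obtain ⟨C, hC, hcompl⟩ := hdis.exists_isCompl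
      have hb0 : b ≠ 0 := by rintro rfl; exact hbA A.zero_mem
      have hbC : b ∉ C := by
        intro hb
        exact hb0 (Submodule.disjoint_def.mp hcompl.disjoint b hb
          (Submodule.mem_span_singleton_self b))
      have hsup : (R ⊓ C) ⊔ Submodule.span ℚ {b} = R := by
        have h1 : Submodule.span ℚ {b} ≤ R := by
          rw [Submodule.span_singleton_le_iff_mem]; exact hbR
        rw [inf_comm, sup_comm, ← sup_inf_assoc_of_le C h1, sup_comm, hcompl.sup_eq_top,
          top_inf_eq]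
      have hAA : A ≤ R ⊓ C := le_inf hA hC
      have hbA' : b ∉ R ⊓ C := fun hh => hbC hh.2
      obtain ⟨Pr, hP1, hP2⟩ := h R (R ⊓ C) b hR inf_le_left hbR hbA' hsup
      have hzR : z ∈ KK R := star_KK_mono hA hzA
      have hz1 : Pr ⟨z, hzR⟩ = z := hP1 ⟨z, hzR⟩ (star_KK_mono hAA hzA)
      have hz2 := star_step Pr hP2 s hs ⟨z, hzR⟩ hzs
      rw [hz1] at hz2
      have hlt2 : R ⊓ C < R := lt_of_le_of_ne inf_le_left (fun hh => hbA' (by rw [hh]; exact hbR))
      have hfr : finrank ℚ (R ⊓ C : Submodule ℚ ℂ) < n := by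
        rw [← hn]
        exact Submodule.finrank_lt_finrank_of_lt hlt2
      have h3 := ih _ hfr (R ⊓ C) (hR.of_le inf_le_left) rfl A hAA
        (s.map (fun B => (R ⊓ C) ⊓ B)) (by
          intro M hM
          obtain ⟨B, _, rfl⟩ := Multiset.mem_map.mp hM
          exact inf_le_left) z hzA hz2
      rw [Multiset.map_map] at h3
      have h4 : s.map ((fun B => A ⊓ B) ∘ (fun B => (R ⊓ C) ⊓ B)) = s.map (fun B => A ⊓ B) := by
        apply Multiset.map_congr rfl
        intro B _
        change A ⊓ ((R ⊓ C) ⊓ B) = A ⊓ B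
        rw [← inf_assoc, inf_eq_left.mpr hAA]
      rw [h4] at h3
      exact h3
  intro R hR A hA s hs z hzA hzs
  exact key _ R hR rfl A hA s hs z hzA hzs

end Pool.Agent.Lib.MP_c82530_nt.AD
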