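import Mathlib
import Pool.Agent.Lib.MP_c82530_nt.AD.Stm
import Pool.Agent.Lib.MP_c82530_nt.AA.Meas

set_option autoImplicit false

namespace Pool.Agent.Lib.MP_c82530_nt.AD

open Set Pool.Agent.Lib.MP_c82530_nt Pool.Agent.Lib.MP_c82530_nt.AA Module

private lemma two_cs (X Z : Finset ℕ) (w v : ℕ → ℝ) (hv : ∀ z ∈ Z, 0 ≤ v z) (f : ℕ → ℕ → Prop)
    [∀ s t, Decidable (f s t)] :
    (∑ x ∈ X, ∑ z ∈ Z, if f x z then w x * v z else 0) ^ 2 ≤
      (∑ z ∈ Z, v z) * ∑ z ∈ Z, ∑ x ∈ X, ∑ x' ∈ X,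
        if f x z ∧ f x' z then w x * w x' * v z else 0 := by
  have h1 : ∑ x ∈ X, ∑ z ∈ Z, (if f x z then w x * v z else 0) =
      ∑ z ∈ Z, Real.sqrt (v z) * (Real.sqrt (v z) * ∑ x ∈ X, if f x z then w x else 0) := by
    rw [Finset.sum_comm]
    refine Finset.sum_congr rfl fun z hz => ?_
    rw [← mul_assoc, Real.mul_self_sqrt (hv z hz), Finset.mul_sum]
    refine Finset.sum_congr rfl fun x _ => ?_
    split_ifs
    · ring
    · ring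
  have h2 : ∑ z ∈ Z, v z = ∑ z ∈ Z, Real.sqrt (v z) ^ 2 :=
    Finset.sum_congr rfl fun z hz => (Real.sq_sqrt (hv z hz)).symm
  have h3 : ∑ z ∈ Z, ∑ x ∈ X, ∑ x' ∈ X, (if f x z ∧ f x' z then w x * w x' * v z else 0) =
      ∑ z ∈ Z, (Real.sqrt (v z) * ∑ x ∈ X, if f x z then w x else 0) ^ 2 := by
    refine Finset.sum_congr rfl fun z hz => ?_
    rw [mul_pow, Real.sq_sqrt (hv z hz), sq (∑ x ∈ X, if f x z then w x else 0),
      Finset.sum_mul_sum, Finset.mul_sum]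
    refine Finset.sum_congr rfl fun x _ => ?_
    rw [Finset.mul_sum]
    refine Finset.sum_congr rfl fun x' _ => ?_
    by_cases ha : f x z <;> by_cases hb : f x' z
    · rw [if_pos ⟨ha, hb⟩, if_pos ha, if_pos hb]; ring
    · rw [if_neg (fun h => hb h.2), if_neg hb]; ring
    · rw [if_neg (fun h => ha h.1), if_neg ha]; ring
    · rw [if_neg (fun h => ha h.1), if_neg ha]; ring
  rw [h1, h2, h3]
  exact Finset.sum_mul_sq_le_sq_mul_sq Z _ _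

theorem p_two (hzs : S_zs) (hsp : S_sp) : S_two := by
  classical
  intro P1 P2 F h1 h2 hd A ε1 δ hε1 hδ hεδ hF B0 BA BB hB0 hBA hBB hcov
  intro Y hY hYA
  choose! s hs t ht hst using hsp P1 P2 h1 h2 hd
  set X : Finset ℕ := Y.image s with hX
  set Z : Finset ℕ := Y.image t with hZ
  have hXf : ∀ a ∈ X, a ∈ Nat.factoredNumbers P1 := by
    intro a ha
    obtain ⟨b, hb, rfl⟩ := Finset.mem_image.mp ha
    exact hs b (hY b hb)
  have hZf : ∀ a ∈ Z, a ∈ Nat.factoredNumbers P2 := by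
    intro a ha
    obtain ⟨b, hb, rfl⟩ := Finset.mem_image.mp ha
    exact ht b (hY b hb)
  have hw : ∀ a : ℕ, (0 : ℝ) ≤ (a : ℝ)⁻¹ := fun a => by positivity
  have hZ1 := ZP_pos h1
  have hZ2 := ZP_pos h2
  -- step 1
  have step1 : ∑ b ∈ Y, (b : ℝ)⁻¹ ≤
      ∑ x ∈ X, ∑ z ∈ Z, if x * z ∈ A then (x : ℝ)⁻¹ * (z : ℝ)⁻¹ else 0 := by
    rw [← Finset.sum_product' (s := X) (t := Z)
      (f := fun x z => if x * z ∈ A then (x : ℝ)⁻¹ * (z : ℝ)⁻¹ else 0)]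
    have hinj : Set.InjOn (fun b => (s b, t b)) (Y : Set ℕ) := by
      intro x hx y hy hxy
      simp only [Prod.mk.injEq] at hxy
      rw [hst x (hY x hx), hst y (hY y hy), hxy.1, hxy.2]
    have h3 : ∑ b ∈ Y, (b : ℝ)⁻¹ = ∑ q ∈ Y.image (fun b => (s b, t b)),
        (if q.1 * q.2 ∈ A then (q.1 : ℝ)⁻¹ * (q.2 : ℝ)⁻¹ else 0) := by
      rw [Finset.sum_image hinj]
      apply Finset.sum_congr rfl
      intro b hb
      have h4 := hst b (hY b hb)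
      simp only
      rw [← h4, if_pos (hYA b hb)]
      conv_lhs => rw [h4]
      push_cast
      rw [mul_inv]
    rw [h3]
    apply Finset.sum_le_sum_of_subset_of_nonneg
    · intro q hq
      obtain ⟨b, hb, rfl⟩ := Finset.mem_image.mp hq
      exact Finset.mem_product.mpr ⟨Finset.mem_image_of_mem s hb, Finset.mem_image_of_mem t hb⟩
    · intro q _ _
      split_ifs
      · exact mul_nonneg (hw _) (hw _)
      · exact le_rfl
  -- step 2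
  have step2 := two_cs X Z (fun a => (a : ℝ)⁻¹) (fun a => (a : ℝ)⁻¹) (fun a _ => hw a)
    (fun x z => x * z ∈ A)
  have hsX : ∑ a ∈ X, (a : ℝ)⁻¹ ≤ ZP P1 := hzs P1 h1 X hXf
  have hsZ : ∑ a ∈ Z, (a : ℝ)⁻¹ ≤ ZP P2 := hzs P2 h2 Z hZf
  have hsX0 : 0 ≤ ∑ a ∈ X, (a : ℝ)⁻¹ := Finset.sum_nonneg fun a _ => hw a
  have hsZ0 : 0 ≤ ∑ a ∈ Z, (a : ℝ)⁻¹ := Finset.sum_nonneg fun a _ => hw a
  -- the three kinds of sums
  have e1 : ∀ D : ℕ → Set ℕ, (∀ z, Sm P1 (D z) ε1) →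
      ∑ z ∈ Z, ∑ x ∈ X, ∑ x' ∈ X,
        ((if x ∈ D z then (x : ℝ)⁻¹ else 0) * (x' : ℝ)⁻¹ * (z : ℝ)⁻¹) ≤
      ε1 * (ZP P1 ^ 2 * ZP P2) := by
    intro D hD
    calc _ = ∑ z ∈ Z, (z : ℝ)⁻¹ * ((∑ x ∈ X, if x ∈ D z then (x : ℝ)⁻¹ else 0) *
          ∑ x' ∈ X, (x' : ℝ)⁻¹) := by
          refine Finset.sum_congr rfl fun z _ => ?_
          rw [Finset.sum_mul_sum, Finset.mul_sum]
          refine Finset.sum_congr rfl fun x _ => ?_
          rw [Finset.mul_sum]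
          refine Finset.sum_congr rfl fun x' _ => ?_
          ring
      _ ≤ ∑ z ∈ Z, (z : ℝ)⁻¹ * ((ε1 * ZP P1) * ZP P1) := by
          refine Finset.sum_le_sum fun z _ => ?_
          apply mul_le_mul_of_nonneg_left _ (hw _)
          exact mul_le_mul ((hD z).sum_ite hXf) hsX hsX0 (by positivity)
      _ = (∑ z ∈ Z, (z : ℝ)⁻¹) * ((ε1 * ZP P1) * ZP P1) := by rw [Finset.sum_mul]
      _ ≤ ZP P2 * ((ε1 * ZP P1) * ZP P1) := mul_le_mul_of_nonneg_right hsZ (by positivity)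
      _ = _ := by ring
  have e2 : ∀ D : ℕ → ℕ → Set ℕ, (∀ x z, Sm P1 (D x z) ε1) →
      ∑ z ∈ Z, ∑ x ∈ X, ∑ x' ∈ X,
        ((x : ℝ)⁻¹ * (if x' ∈ D x z then (x' : ℝ)⁻¹ else 0) * (z : ℝ)⁻¹) ≤
      ε1 * (ZP P1 ^ 2 * ZP P2) := by
    intro D hD
    calc _ = ∑ z ∈ Z, ∑ x ∈ X, ((z : ℝ)⁻¹ * (x : ℝ)⁻¹ *
          ∑ x' ∈ X, if x' ∈ D x z then (x' : ℝ)⁻¹ else 0) := by
          refine Finset.sum_congr rfl fun z _ => ?_
          refine Finset.sum_congr rfl fun x _ => ?_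
          rw [Finset.mul_sum]
          refine Finset.sum_congr rfl fun x' _ => ?_
          ring
      _ ≤ ∑ z ∈ Z, ∑ x ∈ X, ((z : ℝ)⁻¹ * (x : ℝ)⁻¹ * (ε1 * ZP P1)) := by
          refine Finset.sum_le_sum fun z _ => ?_
          refine Finset.sum_le_sum fun x _ => ?_
          exact mul_le_mul_of_nonneg_left ((hD x z).sum_ite hXf) (mul_nonneg (hw _) (hw _))
      _ = ((∑ z ∈ Z, (z : ℝ)⁻¹) * ∑ x ∈ X, (x : ℝ)⁻¹) * (ε1 * ZP P1) := by
          rw [Finset.sum_mul_sum, Finset.sum_mul]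
          refine Finset.sum_congr rfl fun z _ => ?_
          rw [Finset.sum_mul]
      _ ≤ (ZP P2 * ZP P1) * (ε1 * ZP P1) := by
          apply mul_le_mul_of_nonneg_right _ (by positivity)
          exact mul_le_mul hsZ hsX hsX0 hZ2.le
      _ = _ := by ring
  have e3 : ∀ D : ℕ → ℕ → Set ℕ, (∀ x x', Sm P2 (D x x') ε1) →
      ∑ z ∈ Z, ∑ x ∈ X, ∑ x' ∈ X,
        ((x : ℝ)⁻¹ * (x' : ℝ)⁻¹ * (if z ∈ D x x' then (z : ℝ)⁻¹ else 0)) ≤
      ε1 * (ZP P1 ^ 2 * ZP P2) := by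
    intro D hD
    calc _ = ∑ x ∈ X, ∑ x' ∈ X, ((x : ℝ)⁻¹ * (x' : ℝ)⁻¹ *
          ∑ z ∈ Z, if z ∈ D x x' then (z : ℝ)⁻¹ else 0) := by
          rw [Finset.sum_comm]
          refine Finset.sum_congr rfl fun x _ => ?_
          rw [Finset.sum_comm]
          refine Finset.sum_congr rfl fun x' _ => ?_
          rw [Finset.mul_sum]
      _ ≤ ∑ x ∈ X, ∑ x' ∈ X, ((x : ℝ)⁻¹ * (x' : ℝ)⁻¹ * (ε1 * ZP P2)) := by
          refine Finset.sum_le_sum fun x _ => ?_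
          refine Finset.sum_le_sum fun x' _ => ?_
          exact mul_le_mul_of_nonneg_left ((hD x x').sum_ite hZf) (mul_nonneg (hw _) (hw _))
      _ = ((∑ x ∈ X, (x : ℝ)⁻¹) * ∑ x ∈ X, (x : ℝ)⁻¹) * (ε1 * ZP P2) := by
          rw [Finset.sum_mul_sum, Finset.sum_mul]
          refine Finset.sum_congr rfl fun x _ => ?_
          rw [Finset.sum_mul]
      _ ≤ (ZP P1 * ZP P1) * (ε1 * ZP P2) := by
          apply mul_le_mul_of_nonneg_right _ (by positivity)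
          exact mul_le_mul hsX hsX hsX0 hZ1.le
      _ = _ := by ring
  -- step 3
  obtain ⟨NF, hNF, hNF'⟩ : ∃ NF : Set ℕ, (∀ s, s ∉ F → s ∈ NF) ∧ Sm P1 NF ε1 :=
    ⟨{s | s ∉ F}, fun _ h => h, hF⟩
  let BB' : ℕ → ℕ → Set ℕ := fun x x' => if x ∈ F ∧ x' ∈ F then BB x x' else ∅
  have hBB' : ∀ x x', Sm P2 (BB' x x') ε1 := by
    intro x x'
    by_cases h : x ∈ F ∧ x' ∈ F
    · have : BB' x x' = BB x x' := if_pos h
      rw [this]
      exact hBB x h.1 x' h.2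
    · have : BB' x x' = ∅ := if_neg h
      rw [this]
      intro Y' _ hY'
      have h0 : Y' = ∅ := Finset.eq_empty_of_forall_notMem fun b hb => hY' b hb
      rw [h0, Finset.sum_empty]
      positivity
  have step3 : ∑ z ∈ Z, ∑ x ∈ X, ∑ x' ∈ X,
      (if (x * z ∈ A ∧ x' * z ∈ A) then (x : ℝ)⁻¹ * (x' : ℝ)⁻¹ * (z : ℝ)⁻¹ else 0) ≤
      5 * ε1 * (ZP P1 ^ 2 * ZP P2) := by
    have hle : ∑ z ∈ Z, ∑ x ∈ X, ∑ x' ∈ X,
        (if (x * z ∈ A ∧ x' * z ∈ A) then (x : ℝ)⁻¹ * (x' : ℝ)⁻¹ * (z : ℝ)⁻¹ else 0) ≤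
        ∑ z ∈ Z, ∑ x ∈ X, ∑ x' ∈ X,
          ((if x ∈ NF then (x : ℝ)⁻¹ else 0) * (x' : ℝ)⁻¹ * (z : ℝ)⁻¹ +
            (x : ℝ)⁻¹ * (if x' ∈ NF then (x' : ℝ)⁻¹ else 0) * (z : ℝ)⁻¹ +
            (if x ∈ B0 z then (x : ℝ)⁻¹ else 0) * (x' : ℝ)⁻¹ * (z : ℝ)⁻¹ +
            (x : ℝ)⁻¹ * (if x' ∈ BA x z then (x' : ℝ)⁻¹ else 0) * (z : ℝ)⁻¹ +
            (x : ℝ)⁻¹ * (x' : ℝ)⁻¹ * (if z ∈ BB' x x' then (z : ℝ)⁻¹ else 0)) := by
      refine Finset.sum_le_sum fun z hz => Finset.sum_le_sum fun x hx =>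
        Finset.sum_le_sum fun x' hx' => ?_
      have hx0 := hw x
      have hx0' := hw x'
      have hz0 := hw z
      have a1 : 0 ≤ (if x ∈ NF then (x : ℝ)⁻¹ else 0) * (x' : ℝ)⁻¹ * (z : ℝ)⁻¹ := by
        split_ifs <;> positivity
      have a2 : 0 ≤ (x : ℝ)⁻¹ * (if x' ∈ NF then (x' : ℝ)⁻¹ else 0) * (z : ℝ)⁻¹ := by
        split_ifs <;> positivity
      have a3 : 0 ≤ (if x ∈ B0 z then (x : ℝ)⁻¹ else 0) * (x' : ℝ)⁻¹ * (z : ℝ)⁻¹ := by
        split_ifs <;> positivity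
      have a4 : 0 ≤ (x : ℝ)⁻¹ * (if x' ∈ BA x z then (x' : ℝ)⁻¹ else 0) * (z : ℝ)⁻¹ := by
        split_ifs <;> positivity
      have a5 : 0 ≤ (x : ℝ)⁻¹ * (x' : ℝ)⁻¹ * (if z ∈ BB' x x' then (z : ℝ)⁻¹ else 0) := by
        split_ifs <;> positivity
      by_cases hall : x * z ∈ A ∧ x' * z ∈ A
      · rw [if_pos hall]
        by_cases hxF : x ∈ F
        · by_cases hxF' : x' ∈ F
          · rcases hcov x x' z (hXf x hx) (hXf x' hx') (hZf z hz) hall.1 hall.2 with h | h | h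
            · have : (if x ∈ B0 z then (x : ℝ)⁻¹ else 0) * (x' : ℝ)⁻¹ * (z : ℝ)⁻¹ =
                  (x : ℝ)⁻¹ * (x' : ℝ)⁻¹ * (z : ℝ)⁻¹ := by rw [if_pos h]
              linarith
            · have : (x : ℝ)⁻¹ * (if x' ∈ BA x z then (x' : ℝ)⁻¹ else 0) * (z : ℝ)⁻¹ =
                  (x : ℝ)⁻¹ * (x' : ℝ)⁻¹ * (z : ℝ)⁻¹ := by rw [if_pos h]
              linarith
            · have h' : z ∈ BB' x x' := by
                have : BB' x x' = BB x x' := if_pos ⟨hxF, hxF'⟩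
                rw [this]
                exact h
              have : (x : ℝ)⁻¹ * (x' : ℝ)⁻¹ * (if z ∈ BB' x x' then (z : ℝ)⁻¹ else 0) =
                  (x : ℝ)⁻¹ * (x' : ℝ)⁻¹ * (z : ℝ)⁻¹ := by rw [if_pos h']
              linarith
          · have h : x' ∈ NF := hNF _ hxF'
            have : (x : ℝ)⁻¹ * (if x' ∈ NF then (x' : ℝ)⁻¹ else 0) * (z : ℝ)⁻¹ =
                (x : ℝ)⁻¹ * (x' : ℝ)⁻¹ * (z : ℝ)⁻¹ := by rw [if_pos h]
            linarith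
        · have h : x ∈ NF := hNF _ hxF
          have : (if x ∈ NF then (x : ℝ)⁻¹ else 0) * (x' : ℝ)⁻¹ * (z : ℝ)⁻¹ =
              (x : ℝ)⁻¹ * (x' : ℝ)⁻¹ * (z : ℝ)⁻¹ := by rw [if_pos h]
          linarith
      · rw [if_neg hall]
        linarith
    refine hle.trans ?_
    simp only [Finset.sum_add_distrib]
    have f1 := e1 (fun _ => NF) (fun _ => hNF')
    have f2 := e2 (fun _ _ => NF) (fun _ _ => hNF')
    have f3 := e1 B0 hB0
    have f4 := e2 BA hBA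
    have f5 := e3 BB' hBB'
    linarith
  -- step 4
  have step4 : (∑ x ∈ X, ∑ z ∈ Z, if x * z ∈ A then (x : ℝ)⁻¹ * (z : ℝ)⁻¹ else 0) ^ 2 ≤
      (δ * (ZP P1 * ZP P2)) ^ 2 := by
    refine step2.trans ?_
    calc _ ≤ ZP P2 * (5 * ε1 * (ZP P1 ^ 2 * ZP P2)) := by
          apply mul_le_mul hsZ step3 _ hZ2.le
          refine Finset.sum_nonneg fun z _ => Finset.sum_nonneg fun x _ =>
            Finset.sum_nonneg fun x' _ => ?_
          split_ifs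
          · exact mul_nonneg (mul_nonneg (hw _) (hw _)) (hw _)
          · exact le_rfl
      _ ≤ ZP P2 * (δ ^ 2 * (ZP P1 ^ 2 * ZP P2)) := by
          apply mul_le_mul_of_nonneg_left _ hZ2.le
          exact mul_le_mul_of_nonneg_right hεδ (by positivity)
      _ = _ := by ring
  have step5 := le_of_sq_le_sq step4 (by positivity)
  rw [ZP_union hd]
  exact step1.trans step5

end Pool.Agent.Lib.MP_c82530_nt.AD
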